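import Pool.Agent.MP_6883a6_al.H36.Spec

/- Coefficient maps on tensor products and on finitely supported families. -/

namespace Pool.Agent.MP_6883a6_al.H36

open TensorProduct

namespace CoefA

variable {K F D : Type} [Field K] [Group F] [DivisionRing D] [Algebra K D]
  {A : Type} [AddCommGroup A] [Module K A]

/-- contraction with a functional -/
noncomputable def ct (D : Type) [DivisionRing D] [Algebra K D] (ψ : A →ₗ[K] K) :
    D ⊗[K] A →ₗ[D] D :=
  (AlgebraTensorModule.rid K D D).toLinearMap ∘ₗ AlgebraTensorModule.map LinearMap.id ψ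

lemma ct_tmul (ψ : A →ₗ[K] K) (δ : D) (a : A) : ct D ψ (δ ⊗ₜ a) = ψ a • δ := by
  simp [ct]

lemma co_ct (S : MN K F D) (ψ : A →ₗ[K] K) (u : F) (c : D ⊗[K] A) :
    S.co u (ct D ψ c) = ψ (cf0 S A u c) := by
  induction c using TensorProduct.induction_on with
  | zero => simp
  | tmul δ a => rw [ct_tmul, cf0_tmul, map_smul, map_smul, smul_eq_mul, smul_eq_mul, mul_comm]
  | add c c' h h' => simp only [map_add, h, h']

lemma wf_add (S : MN K F D) {E W : Type} [AddCommGroup E] [Module K E] [AddCommGroup W]
    [Module K W] (cf : F → E →ₗ[K] W) (c c' : E) (h : {u | cf u c ≠ 0}.WellFoundedOn S.lt)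
    (h' : {u | cf u c' ≠ 0}.WellFoundedOn S.lt) : {u | cf u (c + c') ≠ 0}.WellFoundedOn S.lt := by
  have := S.tot
  refine (h.union h').subset fun u hu => ?_
  by_contra hn
  simp only [Set.mem_union, Set.mem_ofPred_eq, not_or, not_not] at hn
  exact hu (by rw [map_add, hn.1, hn.2, add_zero])

lemma wf_zero (S : MN K F D) {E W : Type} [AddCommGroup E] [Module K E] [AddCommGroup W]
    [Module K W] (cf : F → E →ₗ[K] W) : {u | cf u 0 ≠ 0}.WellFoundedOn S.lt :=
  (S.wf 0).subset fun _ hu => (hu (map_zero _)).elim

lemma one (S : MN K F D) : Cf S (cf0 S A) := by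
  classical
  refine ⟨fun c hc => ?_, fun c => ?_, fun ψ => ⟨ct D ψ, co_ct S ψ⟩⟩
  · let b := Module.Basis.ofVectorSpace K A
    have e : ∀ (c : D ⊗[K] A) i, equivFinsuppOfBasisRight b c i = ct D (b.coord i) c := by
      intro c i
      induction c using TensorProduct.induction_on with
      | zero => simp
      | tmul δ a => rw [equivFinsuppOfBasisRight_apply_tmul_apply, ct_tmul]; rfl
      | add c c' h h' => simp only [map_add, Finsupp.add_apply, h, h']
    refine (equivFinsuppOfBasisRight b).map_eq_zero_iff.1 (Finsupp.ext fun i => ?_)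
    rw [e]
    exact S.ext0 _ fun u => by rw [co_ct, hc, map_zero]
  · induction c using TensorProduct.induction_on with
    | zero => exact wf_zero S _
    | tmul δ a =>
      refine (S.wf δ).subset fun u hu h => hu ?_
      rw [cf0_tmul, h, zero_smul]
    | add c c' h h' => exact wf_add S _ c c' h h'

end CoefA

open CoefA in
theorem coef : Coef := by
  intro K F D _ _ _ _ S X A _ _
  refine ⟨one S, fun c hc => ?_, fun c => ?_, fun ψ => ?_⟩
  · exact Finsupp.ext fun x => (one S).ext0 _ fun u => DFunLike.congr_fun (hc u) x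
  · induction c using Finsupp.induction_linear with
    | zero => exact (S.wf 0).subset fun _ hu => (hu (map_zero _)).elim
    | add c c' h h' =>
      exact wf_add S (E := X →₀ D ⊗[K] A) (W := X →₀ A)
        (fun u => Finsupp.mapRange.linearMap (cf0 S A u)) c c' h h'
    | single x c =>
      refine ((one S).wf c).subset fun u hu h => hu ?_
      simp [h]
  · refine ⟨Finsupp.lsum ℕ fun x => ct D (ψ ∘ₗ Finsupp.lsingle x), fun u c => ?_⟩
    induction c using Finsupp.induction_linear with
    | zero => simp
    | add c c' h h' => simp only [map_add, h, h']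
    | single x c => simp [co_ct]

end Pool.Agent.MP_6883a6_al.H36
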