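import Pool.Agent.MP_6883a6_al.H36.Spec

/-
Row Cos: decomposition along the cosets of a subgroup.
-/

namespace Pool.Agent.MP_6883a6_al.H36

open TensorProduct

namespace CosA

variable {K F I J : Type} [Field K] [Group F] (H : Subgroup F)

open Classical in
/-- the part supported on a coset -/
noncomputable def P (C : F ⧸ H) : Fr K F I →ₗ[K] Fr K F I where
  toFun v := v.filter fun p => (p.2 : F ⧸ H) = C
  map_add' _ _ := Finsupp.filter_add
  map_smul' _ _ := Finsupp.filter_smul

open Classical in
lemma P_apply (C : F ⧸ H) (v : Fr K F I) (i : I) (u : F) :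
    P H C v (i, u) = if (u : F ⧸ H) = C then v (i, u) else 0 := by
  simp [P, Finsupp.filter_apply]

open Classical in
lemma P_single (C : F ⧸ H) (i : I) (u : F) (c : K) :
    P H C (Finsupp.single (i, u) c) =
      if (u : F ⧸ H) = C then Finsupp.single (i, u) c else 0 := by
  split_ifs with h
  · exact Finsupp.filter_single_of_pos (p := fun p : I × F => (p.2 : F ⧸ H) = C) h
  · exact Finsupp.filter_single_of_neg (p := fun p : I × F => (p.2 : F ⧸ H) = C) h

lemma mk_mul (g u : F) : ((g * u : F) : F ⧸ H) = g • (u : F ⧸ H) := rfl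

lemma P_tr (g : F) (C : F ⧸ H) (v : Fr K F I) :
    P H (g • C) (tr K F I g v) = tr K F I g (P H C v) := by
  ext ⟨i, u⟩
  obtain ⟨u, rfl⟩ : ∃ u', u = g * u' := ⟨g⁻¹ * u, by simp⟩
  rw [P_apply, tr_apply, tr_apply, P_apply, mk_mul]
  by_cases h : (u : F ⧸ H) = C
  · rw [if_pos h, if_pos (by rw [h])]
  · rw [if_neg h, if_neg fun h' => h ((smul_left_cancel_iff g).1 h')]

lemma mk_eq_one (u : F) : (u : F ⧸ H) = ((1 : F) : F ⧸ H) ↔ u ∈ H := by
  rw [QuotientGroup.eq]
  simp

open Classical in
lemma P_supp {v : Fr K F I} (hv : ∀ i u, u ∉ H → v (i, u) = 0) (C : F ⧸ H) :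
    P H C v = if ((1 : F) : F ⧸ H) = C then v else 0 := by
  ext ⟨i, u⟩
  rw [P_apply]
  by_cases hu : u ∈ H
  · rw [(mk_eq_one H u).2 hu]
    split_ifs <;> simp
  · have := hv i u hu
    split_ifs <;> simp [this]

open Classical in
lemma P_tr_supp {v : Fr K F I} (hv : ∀ i u, u ∉ H → v (i, u) = 0) (u : F) (C : F ⧸ H) :
    P H C (tr K F I u v) = if (u : F ⧸ H) = C then tr K F I u v else 0 := by
  obtain ⟨C, rfl⟩ : ∃ C', C = u • C' := ⟨u⁻¹ • C, by simp⟩
  rw [P_tr, P_supp H hv]
  have : (u : F ⧸ H) = u • C ↔ ((1 : F) : F ⧸ H) = C := by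
    conv_lhs => rw [← mul_one u, mk_mul, mul_one]
    exact smul_left_cancel_iff u
  simp only [this]
  split_ifs <;> simp

lemma mem_of_P (M : Submodule K (Fr K F I)) (v : Fr K F I) (h : ∀ C, P H C v ∈ M) : v ∈ M := by
  classical
  have e : v = ∑ C ∈ v.support.image fun p => (p.2 : F ⧸ H), P H C v := by
    ext ⟨i, u⟩
    rw [Finsupp.finsetSum_apply]
    simp only [P_apply, Finset.sum_ite_eq]
    split_ifs with h1
    · rfl
    · by_contra h2
      exact h1 (Finset.mem_image.2 ⟨(i, u), Finsupp.mem_support_iff.2 h2, rfl⟩)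
  rw [e]
  exact M.sum_mem fun C _ => h C

lemma tr_tr (g h : F) (v : Fr K F I) : tr K F I g (tr K F I h v) = tr K F I (g * h) v := by
  rw [map_mul, Module.End.mul_apply]

lemma tr_one (v : Fr K F I) : tr K F I 1 v = v := by
  rw [map_one, Module.End.one_apply]

lemma ind {b : J → Fr K F I} (hs : ∀ j i u, u ∉ H → b j (i, u) = 0)
    (hi : LinearIndependent K fun p : J × H => tr K F I p.2 (b p.1)) : Ind b := by
  classical
  rw [Ind, linearIndependent_iff]
  intro l hl
  ext ⟨j₀, u₀⟩
  let e : J × H → J × F := fun p => (p.1, u₀ * p.2)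
  have he : Function.Injective e := by
    rintro ⟨j, h⟩ ⟨j', h'⟩ hh
    simp only [e, Prod.mk.injEq, mul_right_inj, SetLike.coe_eq_coe] at hh
    exact Prod.ext hh.1 hh.2
  have key : ∀ l : J × F →₀ K,
      Finsupp.linearCombination K (fun p : J × H => tr K F I p.2 (b p.1))
        (Finsupp.lcomapDomain (R := K) e he l) =
      tr K F I u₀⁻¹ (P H (u₀ : F ⧸ H)
        (Finsupp.linearCombination K (fun p : J × F => tr K F I p.2 (b p.1)) l)) := by
    intro l
    induction l using Finsupp.induction_linear with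
    | zero => simp
    | add v w hv hw => simp only [map_add, hv, hw]
    | single p c =>
      obtain ⟨j, u⟩ := p
      rw [Finsupp.linearCombination_single, map_smul, map_smul, P_tr_supp H (hs j)]
      split_ifs with h
      · have hm : u₀⁻¹ * u ∈ H := QuotientGroup.eq.1 h.symm
        have h1 : (j, u) = e (j, ⟨u₀⁻¹ * u, hm⟩) := by simp [e]
        rw [tr_tr]
        conv_lhs => rw [h1, Finsupp.lcomapDomain_apply, Finsupp.comapDomain_single,
          Finsupp.linearCombination_single]
      · have h1 : Finsupp.lcomapDomain (R := K) e he (Finsupp.single (j, u) c) = 0 := by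
          ext ⟨j', h'⟩
          rw [Finsupp.lcomapDomain_apply, Finsupp.comapDomain_apply, Finsupp.single_apply, if_neg]
          · rfl
          · intro hh
            apply h
            have h2 : u = u₀ * h' := (Prod.ext_iff.1 hh).2
            rw [h2]
            exact QuotientGroup.mk_mul_of_mem u₀ h'.2
        rw [h1]
        simp
  have h0 := key l
  rw [hl, map_zero, map_zero] at h0
  have h1 := linearIndependent_iff.1 hi _ h0
  have h2 := DFunLike.congr_fun h1 (j₀, 1)
  rw [Finsupp.lcomapDomain_apply, Finsupp.comapDomain_apply] at h2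
  simpa [e] using h2

end CosA

open CosA in
theorem cos1 : Cos1 := by
  classical
  intro K F I J _ _ H N _ _ ρ q hq b hb
  have hb1 : ∀ j, q (b j) = 0 ∧ ∀ i u, u ∉ H → b j (i, u) = 0 := fun j =>
    (hb.sp (b j)).1 (Submodule.subset_span ⟨(j, 1), tr_one _⟩)
  refine ⟨ind H (fun j => (hb1 j).2) hb.ind, ?_⟩
  let q' : Fr K F I →ₗ[K] N ⊗[K] MonoidAlgebra K (F ⧸ H) :=
    Finsupp.linearCombination K fun p : I × F =>
      q (Finsupp.single p 1) ⊗ₜ MonoidAlgebra.single (p.2 : F ⧸ H) 1
  have hq' : ∀ i u c, q' (Finsupp.single (i, u) c) =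
      q (Finsupp.single (i, u) c) ⊗ₜ MonoidAlgebra.single (u : F ⧸ H) 1 := by
    intro i u c
    simp only [q', Finsupp.linearCombination_single, smul_tmul', ← map_smul, Finsupp.smul_single,
      smul_eq_mul, mul_one]
  have heq : ∀ g v, q' (tr K F I g v) =
      ρ.tprod (Representation.ofMulAction K F (F ⧸ H)) g (q' v) := by
    intro g v
    induction v using Finsupp.induction_linear with
    | zero => simp
    | add v w hv hw => simp only [map_add, hv, hw]
    | single p c =>
      obtain ⟨i, u⟩ := p
      rw [tr_single, hq', hq', Representation.tprod_apply, TensorProduct.map_tmul,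
        Representation.ofMulAction_single, ← hq, tr_single, mk_mul]
  have hP : ∀ C v, q' (P H C v) = q (P H C v) ⊗ₜ MonoidAlgebra.single C 1 := by
    intro C v
    induction v using Finsupp.induction_linear with
    | zero => simp
    | add v w hv hw => simp only [map_add, hv, hw, add_tmul]
    | single p c =>
      obtain ⟨i, u⟩ := p
      rw [P_single]
      split_ifs with h
      · rw [hq', h]
      · simp
  have hc : ∀ C v, cR (Finsupp.lapply C ∘ₗ (MonoidAlgebra.coeffLinearEquiv K).toLinearMap) (q' v) =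
      q (P H C v) := by
    intro C v
    induction v using Finsupp.induction_linear with
    | zero => simp
    | add v w hv hw => simp only [map_add, hv, hw]
    | single p c =>
      obtain ⟨i, u⟩ := p
      rw [P_single, hq']
      split_ifs with h
      · simp [cR, h]
      · simp [cR, h]
  refine ⟨q', heq, le_antisymm (fun v hv => ?_) ?_⟩
  · refine mem_of_P H _ v fun C => ?_
    obtain ⟨u, rfl⟩ := QuotientGroup.mk_surjective C
    have h0 : q (P H (u : F ⧸ H) v) = 0 := by
      rw [← hc, LinearMap.mem_ker.1 hv, map_zero]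
    have h1 : tr K F I u⁻¹ (P H (u : F ⧸ H) v) ∈
        Submodule.span K (Set.range fun p : J × H => tr K F I p.2 (b p.1)) := by
      refine (hb.sp _).2 ⟨?_, fun i w hw => ?_⟩
      · rw [LinearMap.mem_ker, hq, h0, map_zero]
      · obtain ⟨w, rfl⟩ : ∃ w', w = u⁻¹ * w' := ⟨u * w, by simp⟩
        rw [tr_apply, P_apply, if_neg]
        exact fun h => hw (QuotientGroup.eq.1 h.symm)
    have h2 : Submodule.span K (Set.range fun p : J × H => tr K F I p.2 (b p.1)) ≤ gen b :=
      Submodule.span_mono (by
        rintro _ ⟨p, rfl⟩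
        exact ⟨(p.1, p.2), rfl⟩)
    have h3 := tr_mem_gen b u (h2 h1)
    rwa [tr_tr, mul_inv_cancel, tr_one] at h3
  · rw [gen, Submodule.span_le]
    rintro _ ⟨p, rfl⟩
    have h1 := hP ((1 : F) : F ⧸ H) (b p.1)
    rw [P_supp H (hb1 p.1).2, if_pos rfl, (hb1 p.1).1, zero_tmul] at h1
    show q' (tr K F I p.2 (b p.1)) = 0
    rw [heq, h1, map_zero]

open CosA in
theorem cos2 : Cos2 := by
  intro K F _ _ h s
  set H := Subgroup.closure (Set.range s) with hH
  set w : Fin h → Fr K F Unit :=
    fun k => Finsupp.single ((), s k) (1 : K) - Finsupp.single ((), 1) 1 with hw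
  let q : Fr K F Unit →ₗ[K] MonoidAlgebra K (F ⧸ H) :=
    Finsupp.linearCombination K fun p : Unit × F => MonoidAlgebra.single (p.2 : F ⧸ H) 1
  have hq : ∀ i u c, q (Finsupp.single (i, u) c) = MonoidAlgebra.single (u : F ⧸ H) c := by
    intro i u c
    simp [q]
  have heq : ∀ g v, q (tr K F Unit g v) = Representation.ofMulAction K F (F ⧸ H) g (q v) := by
    intro g v
    induction v using Finsupp.induction_linear with
    | zero => simp
    | add v w hv hw => simp only [map_add, hv, hw]
    | single p c =>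
      obtain ⟨i, u⟩ := p
      rw [tr_single, hq, hq, Representation.ofMulAction_single, mk_mul]
  let σ : MonoidAlgebra K (F ⧸ H) →ₗ[K] Fr K F Unit :=
    (Finsupp.linearCombination K fun C : F ⧸ H => Finsupp.single ((), C.out) (1 : K)) ∘ₗ
      (MonoidAlgebra.coeffLinearEquiv K).toLinearMap
  have hσ : ∀ C c, σ (MonoidAlgebra.single C c) = Finsupp.single ((), C.out) c := by
    intro C c
    simp [σ]
  have hk : ∀ k ∈ H, ∀ g : F,
      Finsupp.single ((), g * k) (1 : K) - Finsupp.single ((), g) 1 ∈ gen w := by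
    intro k hk
    induction hk using Subgroup.closure_induction with
    | mem x hx =>
      obtain ⟨j, rfl⟩ := hx
      intro g
      have := tr_mem_gen w g (mem_gen w j)
      simpa [hw] using this
    | one => intro g; simp
    | mul x y _ _ hx hy =>
      intro g
      have := (gen w).add_mem (hy (g * x)) (hx g)
      rwa [sub_add_sub_cancel, mul_assoc] at this
    | inv x _ hx =>
      intro g
      have := (gen w).neg_mem (hx (g * x⁻¹))
      rwa [neg_sub, inv_mul_cancel_right] at this
  have hv : ∀ v, v - σ (q v) ∈ gen w := by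
    intro v
    induction v using Finsupp.induction_linear with
    | zero => simp
    | add v v' h1 h2 =>
      have := (gen w).add_mem h1 h2
      rwa [map_add, map_add, add_sub_add_comm]
    | single p c =>
      obtain ⟨⟨⟩, u⟩ := p
      rw [hq, hσ]
      obtain ⟨k, hk'⟩ := QuotientGroup.mk_out_eq_mul H u
      have := (gen w).smul_mem c ((gen w).neg_mem (hk k k.2 u))
      rw [hk']
      simpa [smul_sub] using this
  refine ⟨q, heq, fun x => ⟨σ x, ?_⟩, le_antisymm (fun v hv0 => ?_) ?_⟩
  · induction x using MonoidAlgebra.induction_linear with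
    | zero => simp
    | add x y hx hy => simp only [map_add, hx, hy]
    | single C c => rw [hσ, hq, QuotientGroup.out_eq']
  · have := hv v
    rwa [LinearMap.mem_ker.1 hv0, map_zero, sub_zero] at this
  · rw [gen, Submodule.span_le]
    rintro _ ⟨p, rfl⟩
    show q (tr K F Unit p.2 (w p.1)) = 0
    rw [heq, hw]
    simp only [map_sub, hq]
    rw [(mk_eq_one H (s p.1)).2 (Subgroup.subset_closure ⟨_, rfl⟩), sub_self]

end Pool.Agent.MP_6883a6_al.H36
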