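import Pool.Agent.MP_6883a6_al.H36.Tr

/-
The theorem for right modules over the group algebra, from the row Main.
-/

namespace Pool.Agent.MP_6883a6_al.H36

open TrA

lemma closure_basis {G : Type} [Group G] {H : Subgroup G} {h : ℕ} (b : FreeGroupBasis (Fin h) H) :
    ∃ s : Fin h → G, Subgroup.closure (Set.range s) = H := by
  refine ⟨H.subtype ∘ b, ?_⟩
  have h1 : Subgroup.closure (Set.range b) = ⊤ := by
    have := congrArg (Subgroup.map b.repr.symm.toMonoidHom) (FreeGroup.closure_range_of (Fin h))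
    rwa [MonoidHom.map_closure, Subgroup.map_top_of_surjective _ b.repr.symm.surjective,
      ← Set.range_comp] at this
  rw [Set.range_comp, ← MonoidHom.map_closure, h1, ← MonoidHom.range_eq_map, Subgroup.range_subtype]

theorem final (hm : Main) (K X : Type) [Field K] (d h m ρ ρ' : ℕ) (H : Subgroup (FreeGroup X))
    (hH : H ≠ ⊥) (bH : FreeGroupBasis (Fin h) H)
    (M : Submodule (MonoidAlgebra K (FreeGroup X))ᵐᵒᵖ (Fin d → MonoidAlgebra K (FreeGroup X)))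
    (bM : Module.Basis (Fin m) (MonoidAlgebra K (FreeGroup X))ᵐᵒᵖ M)
    (M' : Submodule (MonoidAlgebra K H)ᵐᵒᵖ (Fin d → MonoidAlgebra K H))
    (hM' : ∀ v : Fin d → MonoidAlgebra K H,
      v ∈ M' ↔ (fun i => MonoidAlgebra.mapDomain H.subtype (v i)) ∈ M)
    (J : Type) (bM' : Module.Basis J (MonoidAlgebra K H)ᵐᵒᵖ M')
    (hρ : IsLeast {k : ℕ | ∃ w : Fin k → Fin d → MonoidAlgebra K (FreeGroup X), ∀ v ∈ M,
      v ∈ Submodule.span (MonoidAlgebra K (FreeGroup X))ᵐᵒᵖ (Set.range w)} ρ)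
    (hρ' : IsLeast {k : ℕ | ∃ w : Fin k → Fin d → MonoidAlgebra K (FreeGroup X), ∀ v ∈ M',
      (fun i => MonoidAlgebra.mapDomain H.subtype (v i)) ∈
        Submodule.span (MonoidAlgebra K (FreeGroup X))ᵐᵒᵖ (Set.range w)} ρ') :
    Finite J ∧ (Nat.card J : ℤ) - ρ' ≤ ((m : ℤ) - ρ) * ((h : ℤ) - 1) := by
  obtain ⟨s, rfl⟩ := closure_basis bH
  obtain ⟨v, -, hv, hv'⟩ := basis_data M bM
  obtain ⟨b, hb, hb1, hb2⟩ := basis_data M' bM'
  obtain ⟨w', hw'⟩ := hρ'.1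
  have hρm : ρ ≤ m := hρ.2 ⟨v, fun x hx => hv ▸ hx⟩
  have hh : 1 ≤ h := by
    rcases h with _ | h
    · exact absurd (by simp) hH
    · omega
  have key := hm K X d m h ρ ρ' s hH (fun j => Φ K _ d (v j)) (fun k w hw => by
      refine hρ.2 ⟨fun j => (Φ K _ d).symm (w j), fun x hx => ?_⟩
      rw [mem_span_iff]
      simp only [LinearEquiv.apply_symm_apply]
      exact hw ((hv' x).1 hx)) J _
    (hb_of _ _ b hb fun x => by rw [← hb2, hM', hv']) (fun j => Φ K _ d (w' j)) fun j =>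
      (mem_span_iff _ _).1 (hw' _ (hb1 ▸ Submodule.subset_span ⟨j, rfl⟩))
  have hJ : Finite J := Cardinal.mk_lt_aleph0_iff.1 (key.trans_lt Cardinal.natCast_lt_aleph0)
  refine ⟨hJ, ?_⟩
  rw [← Nat.cast_card] at key
  have k2 : Nat.card J ≤ ρ' + (m - ρ) * (h - 1) := by exact_mod_cast key
  have k3 : (Nat.card J : ℤ) ≤ ρ' + ((m - ρ : ℕ) : ℤ) * ((h - 1 : ℕ) : ℤ) := by exact_mod_cast k2
  rw [Nat.cast_sub hρm, Nat.cast_sub hh, Nat.cast_one] at k3
  linarith

end Pool.Agent.MP_6883a6_al.H36
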