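import Pool.Agent.MP_6883a6_al.H36.Spec

/- Row Inner (helper87): finite subsets of the kernel lie in submodules with few generators. -/

namespace Pool.Agent.MP_6883a6_al.H36

open TensorProduct Module

namespace InnerA

section Count
variable {K D W : Type} [Field K] [DivisionRing D] [Algebra K D] [AddCommGroup W] [Module D W]
  [Module K W] [IsScalarTower K D W]

/-- base change of an inclusion -/
noncomputable def jj (D : Type) [DivisionRing D] [Algebra K D] (V : Submodule K W) :
    D ⊗[K] V →ₗ[D] D ⊗[K] W :=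
  AlgebraTensorModule.map LinearMap.id V.subtype

omit [Module D W] [IsScalarTower K D W] in
@[simp] lemma jj_tmul (V : Submodule K W) (δ : D) (a : V) : jj D V (δ ⊗ₜ a) = δ ⊗ₜ (a : W) := by
  simp [jj]

omit [Module D W] [IsScalarTower K D W] in
lemma jj_inj (V : Submodule K W) : Function.Injective (jj D V) := by
  have h := Module.Flat.lTensor_preserves_injective_linearMap (M := D) V.subtype V.injective_subtype
  have e : ∀ c, jj D V c = V.subtype.lTensor D c := by
    intro c
    induction c using TensorProduct.induction_on with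
    | zero => simp
    | tmul δ a => simp
    | add a b ha hb => simp only [map_add, ha, hb]
  intro a b hab
  rw [e, e] at hab
  exact h hab

lemma finrank_bc (V : Type) [AddCommGroup V] [Module K V] [Module.Finite K V] :
    finrank D (D ⊗[K] V) = finrank K V := by
  rw [finrank_eq_card_basis (Algebra.TensorProduct.basis D (Module.finBasis K V))]
  simp

/-- multiplication out -/
noncomputable def ep (K D W : Type) [Field K] [DivisionRing D] [Algebra K D] [AddCommGroup W]
    [Module D W] [Module K W] [IsScalarTower K D W] : D ⊗[K] W →ₗ[D] W :=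
  AlgebraTensorModule.lift (LinearMap.toSpanSingleton D (W →ₗ[K] W) LinearMap.id)

@[simp] lemma ep_tmul (δ : D) (a : W) : ep K D W (δ ⊗ₜ a) = δ • a := by
  simp [ep]

variable {X : Type}

lemma count (io : FreeGroup X →* D) (hA : Acyc K io) [Module.Finite D W] (V : Submodule K W)
    [Module.Finite K V] (hV : Submodule.span D (V : Set W) = ⊤) (Vx : X → Submodule K W)
    (h1 : ∀ x, Vx x ≤ V) (h2 : ∀ x, ∀ a ∈ Vx x, io (FreeGroup.of x) • a ∈ V) (s : Finset X) :
    ∑ x ∈ s, finrank K (Vx x) + finrank D W ≤ finrank K V := by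
  classical
  let ρ : Representation K (FreeGroup X) W := (DistribMulAction.toModuleEnd K W).comp io
  have hρ : ∀ g w, ρ g w = io g • w := fun g w => rfl
  have hZ := hA W ρ hρ
  have : ∀ x, Module.Finite K (Vx x) := fun x => Submodule.finiteDimensional_of_le (h1 x)
  let ι : (∀ x : s, D ⊗[K] Vx x) →ₗ[D] (X →₀ D ⊗[K] W) :=
    ∑ x : s, Finsupp.lsingle (x : X) ∘ₗ jj D (Vx x) ∘ₗ LinearMap.proj x
  have hι : ∀ c, ι c = ∑ x : s, Finsupp.single (x : X) (jj D (Vx x) (c x)) := by
    intro c
    simp [ι, LinearMap.sum_apply]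
  have hιi : Function.Injective ι := by
    rw [injective_iff_map_eq_zero]
    intro c hc
    funext x
    have h := DFunLike.congr_fun ((hι c).symm.trans hc) (x : X)
    rw [Finsupp.finsetSum_apply, Finset.sum_eq_single x] at h
    · rw [Finsupp.single_eq_same] at h
      exact jj_inj (Vx x) (by rw [h]; simp)
    · intro y _ hy
      exact Finsupp.single_eq_of_ne (fun e => hy (Subtype.ext e.symm))
    · intro hx
      exact absurd (Finset.mem_univ x) hx
  have hb : Function.Injective (bd io ρ) := by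
    rw [injective_iff_map_eq_zero]
    intro a ha
    have : a ∈ Z io ρ := ha
    rwa [hZ] at this
  let R := LinearMap.range (jj D V)
  have hR : ∀ c, (bd io ρ ∘ₗ ι) c ∈ R := by
    intro c
    rw [LinearMap.comp_apply, hι, map_sum]
    refine Submodule.sum_mem _ fun x _ => ?_
    rw [bd_single]
    induction c x using TensorProduct.induction_on with
    | zero => simp
    | tmul δ a =>
      rw [jj_tmul, act_tmul, hρ]
      exact Submodule.sub_mem _ ⟨(δ * io (FreeGroup.of (x : X))⁻¹) ⊗ₜ ⟨_, h2 x a a.2⟩, by simp⟩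
        ⟨δ ⊗ₜ ⟨_, h1 x a.2⟩, by simp⟩
    | add a b ha hb =>
      rw [map_add, map_add, add_sub_add_comm]
      exact Submodule.add_mem _ ha hb
  have he : ∀ g c, ep K D W (act io ρ g c) = ep K D W c := by
    intro g c
    induction c using TensorProduct.induction_on with
    | zero => simp
    | tmul δ a =>
      rw [act_tmul, ep_tmul, ep_tmul, hρ, smul_smul, mul_assoc, ← map_mul, inv_mul_cancel,
        map_one, mul_one]
    | add a b ha hb => simp only [map_add, ha, hb]
  have hK : ∀ c, ((bd io ρ ∘ₗ ι).codRestrict R hR) c ∈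
      LinearMap.ker ((ep K D W).domRestrict R) := by
    intro c
    rw [LinearMap.mem_ker, LinearMap.domRestrict_apply, LinearMap.codRestrict_apply,
      LinearMap.comp_apply, hι, map_sum, map_sum]
    refine Finset.sum_eq_zero fun x _ => ?_
    rw [bd_single, map_sub, he, sub_self]
  have hinj : Function.Injective (((bd io ρ ∘ₗ ι).codRestrict R hR).codRestrict _ hK) := by
    intro a b hab
    have h := congrArg (fun z => ((z : R) : D ⊗[K] W)) (congrArg Subtype.val hab)
    exact hιi (hb h)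
  have h3 := LinearMap.finrank_le_finrank_of_injective hinj
  have h4 := LinearMap.finrank_range_add_finrank_ker (V := R) ((ep K D W).domRestrict R)
  have h5 : LinearMap.range ((ep K D W).domRestrict R) = ⊤ := by
    rw [eq_top_iff, ← hV, Submodule.span_le]
    intro a ha
    exact ⟨⟨jj D V ((1 : D) ⊗ₜ ⟨a, ha⟩), LinearMap.mem_range_self _ _⟩, by simp⟩
  have h6 : finrank D R ≤ finrank K V := by
    rw [← finrank_bc (D := D) V]
    exact LinearMap.finrank_range_le _
  rw [h5, finrank_top] at h4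
  rw [Module.finrank_pi_fintype] at h3
  simp only [finrank_bc] at h3
  rw [Finset.sum_coe_sort s fun x => finrank K (Vx x)] at h3
  omega

end Count

section Grow
variable {K X I W : Type} [Field K] [AddCommGroup W] [Module K W]

/-- the vectors of `U` whose translate by `x` is in `U` -/
noncomputable def ed (U : Submodule K (Fr K (FreeGroup X) I)) (x : X) :
    Submodule K (Fr K (FreeGroup X) I) :=
  U ⊓ U.comap (tr K (FreeGroup X) I (FreeGroup.of x))

lemma ed_mono {U U' : Submodule K (Fr K (FreeGroup X) I)} (h : U ≤ U') (x : X) :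
    ed U x ≤ ed U' x := fun _ hy => ⟨h hy.1, h hy.2⟩

/-- the invariant -/
def Inv (q : Fr K (FreeGroup X) I →ₗ[K] W) (c : ℕ) (U : Submodule K (Fr K (FreeGroup X) I)) :
    Prop :=
  Module.Finite K U ∧ ∃ (n : ℕ) (w : Fin n → Fr K (FreeGroup X) I) (s : Finset X),
    U ⊓ LinearMap.ker q ≤ gen w ∧
      n + finrank K (U.map q) ≤ c + ∑ x ∈ s, finrank K ((ed U x).map q)

variable (q : Fr K (FreeGroup X) I →ₗ[K] W)

lemma fr_mono {U U' : Submodule K (Fr K (FreeGroup X) I)} [Module.Finite K U'] (h : U ≤ U')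
    (x : X) : finrank K ((ed U x).map q) ≤ finrank K ((ed U' x).map q) := by
  have : Module.Finite K (ed U' x) := Submodule.finiteDimensional_of_le inf_le_left
  exact Submodule.finrank_mono (Submodule.map_mono (ed_mono h x))

lemma g1 {U : Submodule K (Fr K (FreeGroup X) I)} {G : Submodule K (Fr K (FreeGroup X) I)}
    (hG : U ⊓ LinearMap.ker q ≤ G) {t u : Fr K (FreeGroup X) I} (hu : u ∈ U)
    (h0 : q (t - u) = 0) (hm : t - u ∈ G) :
    (U ⊔ K ∙ t) ⊓ LinearMap.ker q ≤ G ∧ (U ⊔ K ∙ t).map q = U.map q := by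
  constructor
  · rintro y ⟨hy, hy0⟩
    obtain ⟨a, ha, b, hb, rfl⟩ := Submodule.mem_sup.1 hy
    obtain ⟨c, rfl⟩ := Submodule.mem_span_singleton.1 hb
    have e : a + c • t = (a + c • u) + c • (t - u) := by rw [smul_sub]; abel
    have hz : q (a + c • u) = 0 := by
      have h1 : q (a + c • t) = 0 := hy0
      rw [e, map_add, map_smul q c (t - u), h0, smul_zero, add_zero] at h1
      exact h1
    rw [e]
    exact G.add_mem (hG ⟨U.add_mem ha (U.smul_mem c hu), hz⟩) (G.smul_mem c hm)
  · rw [Submodule.map_sup, sup_eq_left, Submodule.map_span, Set.image_singleton,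
      Submodule.span_singleton_le_iff_mem]
    rw [map_sub, sub_eq_zero] at h0
    exact ⟨u, hu, h0.symm⟩

lemma g2 {U : Submodule K (Fr K (FreeGroup X) I)} [Module.Finite K U] {n : ℕ}
    {w : Fin n → Fr K (FreeGroup X) I} (hG : U ⊓ LinearMap.ker q ≤ gen w)
    (t : Fr K (FreeGroup X) I) :
    ∃ (n' : ℕ) (w' : Fin n' → Fr K (FreeGroup X) I), (U ⊔ K ∙ t) ⊓ LinearMap.ker q ≤ gen w' ∧
      n' + finrank K ((U ⊔ K ∙ t).map q) ≤ n + finrank K (U.map q) + 1 := by
  by_cases ht : q t ∈ U.map q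
  · obtain ⟨u, hu, e⟩ := ht
    have hle : gen w ≤ gen (Fin.cons (t - u) w : Fin (n + 1) → _) := by
      refine Submodule.span_mono ?_
      rintro _ ⟨p, rfl⟩
      exact ⟨(p.1.succ, p.2), by simp⟩
    have h := g1 q (hG.trans hle) hu (t := t) (by rw [map_sub, e, sub_self])
      (mem_gen (Fin.cons (t - u) w : Fin (n + 1) → _) 0)
    refine ⟨n + 1, _, h.1, ?_⟩
    rw [h.2]
    omega
  · refine ⟨n, w, ?_, ?_⟩
    · rintro y ⟨hy, hy0⟩
      obtain ⟨a, ha, b, hb, rfl⟩ := Submodule.mem_sup.1 hy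
      obtain ⟨c, rfl⟩ := Submodule.mem_span_singleton.1 hb
      have h1 : q a + c • q t = 0 := by
        have h1 : q (a + c • t) = 0 := hy0
        rwa [map_add, map_smul] at h1
      by_cases hc : c = 0
      · rw [hc, zero_smul, add_zero] at h1 ⊢
        exact hG ⟨ha, h1⟩
      · refine absurd ⟨-(c⁻¹ • a), U.neg_mem (U.smul_mem _ ha), ?_⟩ ht
        rw [map_neg, map_smul, eq_neg_of_add_eq_zero_left h1, smul_neg, neg_neg, smul_smul,
          inv_mul_cancel₀ hc, one_smul]
    · rw [Submodule.map_sup, Submodule.map_span, Set.image_singleton]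
      have h1 := Submodule.finrank_add_le_finrank_add_finrank (U.map q) (K ∙ q t)
      have h2 : finrank K (K ∙ q t) ≤ 1 := by
        simpa using finrank_span_le_card (R := K) ({q t} : Set W)
      omega

lemma inv_add {c : ℕ} {U : Submodule K (Fr K (FreeGroup X) I)} (h : Inv q c U)
    (t : Fr K (FreeGroup X) I) : Inv q (c + 1) (U ⊔ K ∙ t) := by
  obtain ⟨hf, n, w, s, hG, hn⟩ := h
  obtain ⟨n', w', hG', hn'⟩ := g2 q hG t
  refine ⟨inferInstance, n', w', s, hG', ?_⟩
  have := Finset.sum_le_sum fun x (_ : x ∈ s) => fr_mono q (le_sup_left : U ≤ U ⊔ K ∙ t) x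
  omega

lemma inv_edge {c : ℕ} {U : Submodule K (Fr K (FreeGroup X) I)} (h : Inv q c U)
    (t a : Fr K (FreeGroup X) I) (x : X) (ha : a ∈ ed (U ⊔ K ∙ t) x)
    (hold : ∀ G : Submodule K (Fr K (FreeGroup X) I), (∀ g, ∀ y ∈ G, tr K _ I g y ∈ G) →
      U ⊓ LinearMap.ker q ≤ G → q a ∈ (ed U x).map q → ∃ u ∈ U, q (t - u) = 0 ∧ t - u ∈ G) :
    Inv q c (U ⊔ K ∙ t) := by
  classical
  obtain ⟨hf, n, w, s, hG, hn⟩ := h
  by_cases hq : q a ∈ (ed U x).map q
  · obtain ⟨u, hu, h0, hm⟩ := hold (gen w) (fun g y hy => tr_mem_gen w g hy) hG hq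
    have h := g1 q hG hu h0 hm
    refine ⟨inferInstance, n, w, s, h.1, ?_⟩
    have := Finset.sum_le_sum fun x (_ : x ∈ s) => fr_mono q (le_sup_left : U ≤ U ⊔ K ∙ t) x
    rw [h.2]
    omega
  · obtain ⟨n', w', hG', hn'⟩ := g2 q hG t
    refine ⟨inferInstance, n', w', insert x s, hG', ?_⟩
    have : Module.Finite K (ed (U ⊔ K ∙ t) x) := Submodule.finiteDimensional_of_le inf_le_left
    have h1 : finrank K ((ed U x).map q) < finrank K ((ed (U ⊔ K ∙ t) x).map q) := by
      refine Submodule.finrank_lt_finrank_of_lt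
        (lt_of_le_of_ne (Submodule.map_mono (ed_mono le_sup_left x)) fun e => hq ?_)
      rw [e]
      exact ⟨a, ha, rfl⟩
    have h2 := Finset.sum_lt_sum (s := insert x s)
      (fun y _ => fr_mono q (le_sup_left : U ≤ U ⊔ K ∙ t) y) ⟨x, Finset.mem_insert_self x s, h1⟩
    have h3 : ∑ y ∈ s, finrank K ((ed U y).map q) ≤ ∑ y ∈ insert x s, finrank K ((ed U y).map q) :=
      Finset.sum_le_sum_of_subset (Finset.subset_insert x s)
    omega

lemma inv_tr (hq : ∀ g y, q y = 0 → q (tr K (FreeGroup X) I g y) = 0) {c : ℕ} (g : FreeGroup X) :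
    ∀ U, Inv q c U → ∀ y ∈ U, ∃ U', U ≤ U' ∧ Inv q c U' ∧ tr K _ I g y ∈ U' := by
  induction g using FreeGroup.induction_on with
  | C1 => exact fun U h y hy => ⟨U, le_rfl, h, by simpa using hy⟩
  | of x =>
    intro U h y hy
    have hm : tr K _ I (FreeGroup.of x) y ∈ U ⊔ K ∙ tr K _ I (FreeGroup.of x) y :=
      Submodule.mem_sup_right (Submodule.mem_span_singleton_self _)
    refine ⟨_, le_sup_left, inv_edge q h _ y x ⟨Submodule.mem_sup_left hy, hm⟩ ?_, hm⟩
    rintro G hG hU ⟨y', hy', e⟩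
    have h0 : q (y - y') = 0 := by rw [map_sub, e, sub_self]
    refine ⟨_, hy'.2, ?_, ?_⟩
    · rw [← map_sub]
      exact hq _ _ h0
    · rw [← map_sub]
      exact hG _ _ (hU ⟨U.sub_mem hy hy'.1, h0⟩)
  | inv_of x _ =>
    intro U h y hy
    have hm : tr K _ I (FreeGroup.of x)⁻¹ y ∈ U ⊔ K ∙ tr K _ I (FreeGroup.of x)⁻¹ y :=
      Submodule.mem_sup_right (Submodule.mem_span_singleton_self _)
    have e1 : tr K _ I (FreeGroup.of x) (tr K _ I (FreeGroup.of x)⁻¹ y) = y := by
      rw [← Module.End.mul_apply, ← map_mul, mul_inv_cancel, map_one, Module.End.one_apply]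
    refine ⟨_, le_sup_left, inv_edge q h _ _ x ⟨hm, ?_⟩ ?_, hm⟩
    · refine Submodule.mem_comap.2 ?_
      rw [e1]
      exact Submodule.mem_sup_left hy
    rintro G hG hU ⟨y', hy', e⟩
    have h0 : q (tr K _ I (FreeGroup.of x)⁻¹ y - y') = 0 := by rw [map_sub, e, sub_self]
    refine ⟨_, hy'.1, h0, ?_⟩
    have h1 := hq (FreeGroup.of x) _ h0
    rw [map_sub, e1] at h1
    have h2 := hG (FreeGroup.of x)⁻¹ _ (hU ⟨U.sub_mem hy hy'.2, h1⟩)
    rwa [map_sub, ← Module.End.mul_apply _ (tr K _ I (FreeGroup.of x)), ← map_mul, inv_mul_cancel,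
      map_one, Module.End.one_apply] at h2
  | mul g g' ih ih' =>
    intro U h y hy
    obtain ⟨U1, h1, hI1, hm1⟩ := ih' U h y hy
    obtain ⟨U2, h2, hI2, hm2⟩ := ih U1 hI1 _ hm1
    exact ⟨U2, h1.trans h2, hI2, by rw [map_mul]; exact hm2⟩

lemma inv_vec (hq : ∀ g y, q y = 0 → q (tr K (FreeGroup X) I g y) = 0) {c : ℕ}
    (y : Fr K (FreeGroup X) I) : ∀ U, Inv q c U → (∀ i, Finsupp.single (i, 1) 1 ∈ U) →
    ∃ U', U ≤ U' ∧ Inv q c U' ∧ y ∈ U' := by
  induction y using Finsupp.induction_linear with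
  | zero => exact fun U h _ => ⟨U, le_rfl, h, U.zero_mem⟩
  | add a b ha hb =>
    intro U h h0
    obtain ⟨U1, h1, hI1, hm1⟩ := ha U h h0
    obtain ⟨U2, h2, hI2, hm2⟩ := hb U1 hI1 fun i => h1 (h0 i)
    exact ⟨U2, h1.trans h2, hI2, U2.add_mem (h2 hm1) hm2⟩
  | single p a =>
    intro U h h0
    obtain ⟨U1, h1, hI1, hm1⟩ := inv_tr q hq p.2 U h _ (U.smul_mem a (h0 p.1))
    exact ⟨U1, h1, hI1, by simpa using hm1⟩

lemma inv_start (T : Finset I) :
    ∃ U, Inv q T.card U ∧ ∀ i ∈ T, Finsupp.single (i, 1) 1 ∈ U := by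
  classical
  induction T using Finset.induction_on with
  | empty => exact ⟨⊥, ⟨inferInstance, 0, Fin.elim0, ∅, by simp, by simp⟩, by simp⟩
  | insert i T hi ih =>
    obtain ⟨U, hU, hm⟩ := ih
    refine ⟨_, Finset.card_insert_of_notMem hi ▸ inv_add q hU (Finsupp.single (i, 1) 1), ?_⟩
    intro j hj
    rcases Finset.mem_insert.1 hj with rfl | hj
    · exact Submodule.mem_sup_right (Submodule.mem_span_singleton_self _)
    · exact Submodule.mem_sup_left (hm j hj)

lemma inv_all [Fintype I] (hq : ∀ g y, q y = 0 → q (tr K (FreeGroup X) I g y) = 0) {J : Type}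
    (v : J → Fr K (FreeGroup X) I) (T : Finset J) : ∃ U, Inv q (Fintype.card I) U ∧
    (∀ i, Finsupp.single (i, 1) 1 ∈ U) ∧ ∀ j ∈ T, v j ∈ U := by
  classical
  induction T using Finset.induction_on with
  | empty =>
    obtain ⟨U, hU, hm⟩ := inv_start q (Finset.univ : Finset I)
    exact ⟨U, hU, fun i => hm i (Finset.mem_univ i), by simp⟩
  | insert j T _ ih =>
    obtain ⟨U, hU, h0, hm⟩ := ih
    obtain ⟨U1, h1, hI1, hm1⟩ := inv_vec q hq (v j) U hU h0
    refine ⟨U1, hI1, fun i => h1 (h0 i), fun k hk => ?_⟩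
    rcases Finset.mem_insert.1 hk with rfl | hk
    · exact hm1
    · exact h1 (hm k hk)

end Grow

end InnerA

open InnerA in
theorem inner : Inner := by
  intro K X D _ _ _ io hA d m v
  let q : Fr K (FreeGroup X) (Fin d) →ₗ[K] ((Fin d →₀ D) ⧸ sD io v) :=
    (sD io v).mkQ.restrictScalars K ∘ₗ th K io (Fin d)
  have hqa : ∀ y, q y = (sD io v).mkQ (th K io (Fin d) y) := fun y => rfl
  have hq : ∀ g y, q (tr K _ _ g y) = io g • q y := by
    intro g y
    rw [hqa, hqa, th_tr, map_smul]
  obtain ⟨U, ⟨hf, n, w, s, hG, hn⟩, h0, hv⟩ :=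
    inv_all q (fun g y h => by rw [hq, h, smul_zero]) v Finset.univ
  have hsp : Submodule.span D ((U.map q : Submodule K _) : Set ((Fin d →₀ D) ⧸ sD io v)) = ⊤ := by
    rw [eq_top_iff]
    rintro a -
    obtain ⟨a, rfl⟩ := (sD io v).mkQ_surjective a
    induction a using Finsupp.induction_linear with
    | zero => simp
    | add a b ha hb =>
      rw [map_add]
      exact Submodule.add_mem _ ha hb
    | single i δ =>
      have e : (sD io v).mkQ (Finsupp.single i δ) = δ • q (Finsupp.single (i, 1) 1) := by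
        rw [hqa, th_single, one_smul, map_one, ← map_smul, Finsupp.smul_single, smul_eq_mul,
          mul_one]
      rw [e]
      exact Submodule.smul_mem _ _ (Submodule.subset_span ⟨_, h0 i, rfl⟩)
  have hc := count io hA (U.map q) hsp (fun x => (ed U x).map q)
    (fun x => Submodule.map_mono inf_le_left) (by
      rintro x _ ⟨y, hy, rfl⟩
      exact ⟨_, hy.2, hq _ _⟩) s
  have hd := Submodule.finrank_quotient_add_finrank (sD io v)
  rw [Module.finrank_finsupp_self] at hd
  refine ⟨n, w, ?_, ?_⟩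
  · rw [← Module.finrank_eq_rank]
    exact Nat.cast_le.2 (by omega)
  · rw [gen, Submodule.span_le]
    rintro _ ⟨p, rfl⟩
    refine tr_mem_gen w _ (hG ⟨hv p.1 (Finset.mem_univ _), ?_⟩)
    show (sD io v).mkQ _ = 0
    rw [Submodule.mkQ_apply, Submodule.Quotient.mk_eq_zero]
    exact Submodule.subset_span ⟨p.1, rfl⟩

end Pool.Agent.MP_6883a6_al.H36
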