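import Pool.Agent.MP_6883a6_al.H36.Spec

/-
Row LA: a space of tensor valued functions whose contractions lie in spaces of dimensions `a`, `b`
has dimension at most `a * b`.
-/

namespace Pool.Agent.MP_6883a6_al.H36

open TensorProduct Module

namespace LAA

variable {K A B : Type} [Field K] [AddCommGroup A] [Module K A] [AddCommGroup B] [Module K B]

lemma rk {M N : Type} [AddCommGroup M] [Module K M] [AddCommGroup N] [Module K N]
    (f : M →ₗ[K] N) (W : Submodule K M) :
    Module.rank K (W.map f) + Module.rank K (W ⊓ LinearMap.ker f : Submodule K M) =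
      Module.rank K W := by
  have h := (f.domRestrict W).rank_range_add_rank_ker
  rw [LinearMap.range_domRestrict, LinearMap.ker_domRestrict] at h
  have e := (Submodule.equivMapOfInjective W.subtype W.injective_subtype
    ((LinearMap.ker f).comap W.subtype)).rank_eq
  rw [Submodule.map_comap_subtype] at e
  rw [← e, h]

lemma frk {M N : Type} [AddCommGroup M] [Module K M] [AddCommGroup N] [Module K N]
    (f : M →ₗ[K] N) (W : Submodule K M) [Module.Finite K W] :
    finrank K (W.map f) + finrank K (W ⊓ LinearMap.ker f : Submodule K M) = finrank K W := by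
  have h := rk f W
  have : Module.Finite K (W ⊓ LinearMap.ker f : Submodule K M) :=
    Submodule.finiteDimensional_of_le inf_le_left
  rw [← finrank_eq_rank, ← finrank_eq_rank, ← finrank_eq_rank K W] at h
  exact_mod_cast h

lemma cR_tmul (φ : B →ₗ[K] K) (a : A) (b : B) : cR φ (a ⊗ₜ[K] b) = φ b • a := by
  simp [cR]

lemma cL_tmul (ψ : A →ₗ[K] K) (a : A) (b : B) : cL ψ (a ⊗ₜ[K] b) = ψ a • b := by
  simp [cL]

lemma swap (φ : B →ₗ[K] K) (ψ : A →ₗ[K] K) (t : A ⊗[K] B) : φ (cL ψ t) = ψ (cR φ t) := by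
  induction t using TensorProduct.induction_on with
  | zero => simp
  | tmul a b => simp [cR_tmul, cL_tmul, mul_comm]
  | add s t hs ht => simp only [map_add, hs, ht]

lemma sep (t : A ⊗[K] B) (h : ∀ φ : B →ₗ[K] K, cR φ t = 0) : t = 0 := by
  classical
  let b := Module.Basis.ofVectorSpace K B
  have key : ∀ (s : A ⊗[K] B) i, equivFinsuppOfBasisRight b s i = cR (b.coord i) s := by
    intro s i
    induction s using TensorProduct.induction_on with
    | zero => simp
    | tmul a c => simp [cR_tmul]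
    | add s t hs ht => simp only [map_add, Finsupp.add_apply, hs, ht]
  apply (equivFinsuppOfBasisRight b).injective
  ext i
  rw [key, h, map_zero, Finsupp.zero_apply]

lemma fun_ex (A' : Submodule K A) [Module.Finite K A'] :
    ∃ ψ : Fin (finrank K A') → A →ₗ[K] K, ∀ a ∈ A', (∀ i, ψ i a = 0) → a = 0 := by
  let b := Module.finBasis K A'
  have h : ∀ i, ∃ g : A →ₗ[K] K, g.comp A'.subtype = b.coord i := fun i =>
    LinearMap.exists_extend _
  choose ψ hψ using h
  refine ⟨ψ, fun a ha h0 => ?_⟩
  have : (⟨a, ha⟩ : A') = 0 := by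
    rw [← b.forall_coord_eq_zero_iff]
    intro i
    rw [← hψ i]
    exact h0 i
  exact congrArg Subtype.val this

lemma ten (A' : Submodule K A) (B' : Submodule K B) [Module.Finite K A'] [Module.Finite K B']
    (T : Submodule K (A ⊗[K] B)) (hA : ∀ t ∈ T, ∀ φ : B →ₗ[K] K, cR φ t ∈ A')
    (hB : ∀ t ∈ T, ∀ ψ : A →ₗ[K] K, cL ψ t ∈ B') :
    Module.rank K T ≤ (finrank K A' * finrank K B' : ℕ) := by
  obtain ⟨ψ, hψ⟩ := fun_ex A'
  let f : T →ₗ[K] (Fin (finrank K A') → B') :=
    LinearMap.pi fun i => ((cL (ψ i)).domRestrict T).codRestrict B' fun t => hB t t.2 _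
  have hf : Function.Injective f := by
    rw [← LinearMap.ker_eq_bot, LinearMap.ker_eq_bot']
    intro t ht
    apply Subtype.ext
    refine sep _ fun φ => hψ _ (hA t t.2 φ) fun i => ?_
    have h1 : cL (ψ i) (t : A ⊗[K] B) = 0 := congrArg Subtype.val (congrFun ht i)
    rw [← swap, h1, map_zero]
  have h := LinearMap.rank_le_of_injective f hf
  rw [← finrank_eq_rank K (Fin (finrank K A') → B'), finrank_pi_fintype] at h
  simpa using h

lemma key {X : Type} (n : ℕ) : ∀ (LA : Submodule K (X →₀ A)) (LB : Submodule K (X →₀ B))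
    (W : Submodule K (X →₀ A ⊗[K] B)) [Module.Finite K LA] [Module.Finite K LB],
    finrank K LA = n →
    (∀ l ∈ W, ∀ φ : B →ₗ[K] K, Finsupp.mapRange.linearMap (cR φ) l ∈ LA) →
    (∀ l ∈ W, ∀ ψ : A →ₗ[K] K, Finsupp.mapRange.linearMap (cL ψ) l ∈ LB) →
    Module.rank K W ≤ (finrank K LA * finrank K LB : ℕ) := by
  induction n using Nat.strong_induction_on with
  | _ n ih =>
  intro LA LB W _ _ hn hA hB
  by_cases h0 : LA = ⊥
  · have : W = ⊥ := by
      rw [eq_bot_iff]
      intro l hl
      rw [Submodule.mem_bot]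
      ext x
      refine sep _ fun φ => ?_
      have h1 := hA l hl φ
      rw [h0, Submodule.mem_bot] at h1
      simpa using DFunLike.congr_fun h1 x
    rw [this, rank_bot]
    exact zero_le
  · obtain ⟨v, hv, hv0⟩ := Submodule.exists_mem_ne_zero_of_ne_bot h0
    obtain ⟨x, hx⟩ : ∃ x, v x ≠ 0 := by
      by_contra h
      push Not at h
      exact hv0 (Finsupp.ext h)
    have : Module.Finite K (LA ⊓ LinearMap.ker (Finsupp.lapply x) : Submodule K (X →₀ A)) :=
      Submodule.finiteDimensional_of_le inf_le_left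
    have : Module.Finite K (LB ⊓ LinearMap.ker (Finsupp.lapply x) : Submodule K (X →₀ B)) :=
      Submodule.finiteDimensional_of_le inf_le_left
    have hlt : finrank K (LA ⊓ LinearMap.ker (Finsupp.lapply x) : Submodule K (X →₀ A)) < n := by
      rw [← hn]
      refine Submodule.finrank_lt_finrank_of_lt (lt_of_le_of_ne inf_le_left fun h => hx ?_)
      have : v ∈ (LA ⊓ LinearMap.ker (Finsupp.lapply x) : Submodule K (X →₀ A)) := by
        rw [h]; exact hv
      exact this.2
    have h1 := ih _ hlt (LA ⊓ LinearMap.ker (Finsupp.lapply x))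
      (LB ⊓ LinearMap.ker (Finsupp.lapply x)) (W ⊓ LinearMap.ker (Finsupp.lapply x)) rfl
      (fun l hl φ => ⟨hA l hl.1 φ, by
        have h2 : l x = 0 := hl.2
        simp [h2]⟩)
      (fun l hl ψ => ⟨hB l hl.1 ψ, by
        have h2 : l x = 0 := hl.2
        simp [h2]⟩)
    have h2 := ten (LA.map (Finsupp.lapply x)) (LB.map (Finsupp.lapply x))
      (W.map (Finsupp.lapply x))
      (by
        rintro _ ⟨l, hl, rfl⟩ φ
        exact ⟨_, hA l hl φ, by simp⟩)
      (by
        rintro _ ⟨l, hl, rfl⟩ ψ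
        exact ⟨_, hB l hl ψ, by simp⟩)
    rw [← rk (Finsupp.lapply x) W, ← frk (Finsupp.lapply x) LA, ← frk (Finsupp.lapply x) LB]
    refine (add_le_add h2 h1).trans ?_
    rw [← Nat.cast_add, Nat.cast_le]
    nlinarith [Nat.zero_le (finrank K (LA.map (Finsupp.lapply x)) *
      finrank K (LB ⊓ LinearMap.ker (Finsupp.lapply x) : Submodule K (X →₀ B))),
      Nat.zero_le (finrank K (LA ⊓ LinearMap.ker (Finsupp.lapply x) : Submodule K (X →₀ A)) *
      finrank K (LB.map (Finsupp.lapply x)))]

end LAA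

theorem la : LA := by
  intro K X A B _ _ _ _ _ LA LB W a b ha hb hA hB
  have : Module.Finite K LA :=
    Module.rank_lt_aleph0_iff.1 (ha.trans_lt (Cardinal.natCast_lt_aleph0))
  have : Module.Finite K LB :=
    Module.rank_lt_aleph0_iff.1 (hb.trans_lt (Cardinal.natCast_lt_aleph0))
  refine (LAA.key _ LA LB W rfl hA hB).trans ?_
  rw [← finrank_eq_rank, Nat.cast_le] at ha hb
  exact Nat.cast_le.2 (Nat.mul_le_mul ha hb)

end Pool.Agent.MP_6883a6_al.H36
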