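import Pool.Agent.MP_6883a6_al.H36.Spec

/-
Row Low: a free family generating the kernel of an equivariant map has at most
`rank sD + rank Z` members.
-/

namespace Pool.Agent.MP_6883a6_al.H36

open TensorProduct

namespace LowA

variable {K X D : Type} [Field K] [DivisionRing D] [Algebra K D]

lemma act_mul (io : FreeGroup X →* D) {A : Type} [AddCommGroup A] [Module K A]
    (ρ : Representation K (FreeGroup X) A) (g h : FreeGroup X) (c : D ⊗[K] A) :
    act io ρ (g * h) c = act io ρ g (act io ρ h c) := by
  induction c using TensorProduct.induction_on with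
  | zero => simp
  | add a b ha hb => simp only [map_add, ha, hb]
  | tmul δ a =>
    rw [act_tmul, act_tmul, act_tmul, mul_inv_rev, map_mul io, map_mul ρ, mul_assoc,
      Module.End.mul_apply]

lemma act_one (io : FreeGroup X →* D) {A : Type} [AddCommGroup A] [Module K A]
    (ρ : Representation K (FreeGroup X) A) (c : D ⊗[K] A) : act io ρ 1 c = c := by
  induction c using TensorProduct.induction_on with
  | zero => simp
  | add a b ha hb => simp only [map_add, ha, hb]
  | tmul δ a => rw [act_tmul, inv_one, map_one io, map_one ρ, mul_one, Module.End.one_apply]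

lemma f0 (io : FreeGroup X →* D) {A : Type} [AddCommGroup A] [Module K A]
    (ρ : Representation K (FreeGroup X) A) (g : FreeGroup X) :
    ∀ c : D ⊗[K] A, act io ρ g c - c ∈ LinearMap.range (bd io ρ) := by
  induction g using FreeGroup.induction_on with
  | C1 => intro c; rw [act_one, sub_self]; exact Submodule.zero_mem _
  | of x => intro c; exact ⟨Finsupp.single x c, bd_single io ρ x c⟩
  | inv_of x hx =>
    intro c
    have h := hx (act io ρ (FreeGroup.of x)⁻¹ c)
    rw [← act_mul, mul_inv_cancel, act_one] at h
    have := Submodule.neg_mem _ h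
    rwa [neg_sub] at this
  | mul g h hg hh =>
    intro c
    have := Submodule.add_mem _ (hg (act io ρ h c)) (hh c)
    rwa [sub_add_sub_cancel, ← act_mul] at this

/-- the augmentation -/
noncomputable def ep (K : Type) [Field K] [Algebra K D] (io : FreeGroup X →* D) (I : Type) :
    D ⊗[K] Fr K (FreeGroup X) I →ₗ[D] (I →₀ D) :=
  AlgebraTensorModule.lift (LinearMap.toSpanSingleton D _ (th K io I))

lemma ep_tmul (io : FreeGroup X →* D) {I : Type} (δ : D) (v : Fr K (FreeGroup X) I) :
    ep K io I (δ ⊗ₜ v) = δ • th K io I v := by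
  simp [ep]

lemma ep_act (io : FreeGroup X →* D) {I : Type} (g : FreeGroup X)
    (c : D ⊗[K] Fr K (FreeGroup X) I) : ep K io I (act io (tr K _ I) g c) = ep K io I c := by
  induction c using TensorProduct.induction_on with
  | zero => simp
  | add a b ha hb => simp only [map_add, ha, hb]
  | tmul δ a =>
    rw [act_tmul, ep_tmul, ep_tmul, th_tr, smul_smul, mul_assoc, ← map_mul io, inv_mul_cancel,
      map_one, mul_one]

lemma ep_bd (io : FreeGroup X →* D) {I : Type} (z : X →₀ D ⊗[K] Fr K (FreeGroup X) I) :
    ep K io I (bd io (tr K _ I) z) = 0 := by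
  induction z using Finsupp.induction_linear with
  | zero => simp
  | add a b ha hb => simp only [map_add, ha, hb, add_zero]
  | single x c => rw [bd_single, map_sub, ep_act, sub_self]

/-- a section of the augmentation -/
noncomputable def se (K X D : Type) [Field K] [DivisionRing D] [Algebra K D] (I : Type) :
    (I →₀ D) →ₗ[D] D ⊗[K] Fr K (FreeGroup X) I :=
  Finsupp.linearCombination D fun i => (1 : D) ⊗ₜ Finsupp.single (i, 1) (1 : K)

lemma se_single {I : Type} (i : I) (δ : D) :
    se K X D I (Finsupp.single i δ) = δ ⊗ₜ Finsupp.single (i, 1) (1 : K) := by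
  rw [se, Finsupp.linearCombination_single, TensorProduct.smul_tmul', smul_eq_mul, mul_one]

lemma ep_se (io : FreeGroup X →* D) {I : Type} (δ : I →₀ D) :
    ep K io I (se K X D I δ) = δ := by
  induction δ using Finsupp.induction_linear with
  | zero => simp
  | add a b ha hb => simp only [map_add, ha, hb]
  | single i c =>
    rw [se_single, ep_tmul, th_single, one_smul, map_one, Finsupp.smul_single, smul_eq_mul,
      mul_one]

lemma f1 (io : FreeGroup X →* D) {I : Type} (c : D ⊗[K] Fr K (FreeGroup X) I) :
    c - se K X D I (ep K io I c) ∈ LinearMap.range (bd io (tr K _ I)) := by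
  induction c using TensorProduct.induction_on with
  | zero => simp
  | add a b ha hb =>
    have := Submodule.add_mem _ ha hb
    rwa [sub_add_sub_comm, ← map_add, ← map_add] at this
  | tmul δ v =>
    induction v using Finsupp.induction_linear with
    | zero => simp
    | add a b ha hb =>
      have := Submodule.add_mem _ ha hb
      rwa [sub_add_sub_comm, ← map_add, ← map_add, ← TensorProduct.tmul_add] at this
    | single p k =>
      obtain ⟨i, u⟩ := p
      have h := f0 io (tr K _ I) u ((k • (δ * io u)) ⊗ₜ Finsupp.single (i, 1) (1 : K))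
      have e1 : act io (tr K _ I) u ((k • (δ * io u)) ⊗ₜ Finsupp.single (i, 1) (1 : K)) =
          δ ⊗ₜ Finsupp.single (i, u) k := by
        rw [act_tmul, tr_single, mul_one, smul_mul_assoc, mul_assoc, ← map_mul io, mul_inv_cancel,
          map_one, mul_one, TensorProduct.smul_tmul, Finsupp.smul_single, smul_eq_mul, mul_one]
      have e2 : se K X D I (ep K io I (δ ⊗ₜ Finsupp.single (i, u) k)) =
          (k • (δ * io u)) ⊗ₜ Finsupp.single (i, 1) (1 : K) := by
        rw [ep_tmul, th_single, smul_comm δ k, Finsupp.smul_single δ, Finsupp.smul_single k,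
          se_single, smul_eq_mul]
      rwa [e1, ← e2] at h

lemma nat (io : FreeGroup X →* D) {A B : Type} [AddCommGroup A] [Module K A] [AddCommGroup B]
    [Module K B] (ρ : Representation K (FreeGroup X) A) (σ : Representation K (FreeGroup X) B)
    (f : A →ₗ[K] B) (hf : ∀ g v, f (ρ g v) = σ g (f v)) (z : X →₀ D ⊗[K] A) :
    bd io σ (Finsupp.mapRange.linearMap (f.baseChange D) z) = f.baseChange D (bd io ρ z) := by
  have h : ∀ (g : FreeGroup X) (c : D ⊗[K] A),
      act io σ g (f.baseChange D c) = f.baseChange D (act io ρ g c) := by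
    intro g c
    induction c using TensorProduct.induction_on with
    | zero => simp
    | add a b ha hb => simp only [map_add, ha, hb]
    | tmul δ a => rw [act_tmul, LinearMap.baseChange_tmul, LinearMap.baseChange_tmul, act_tmul, hf]
  induction z using Finsupp.induction_linear with
  | zero => simp
  | add a b ha hb => simp only [map_add, ha, hb]
  | single x c =>
    rw [Finsupp.mapRange.linearMap_apply, Finsupp.mapRange_single, bd_single, bd_single, map_sub, h]

lemma sec {U V W : Type} [AddCommGroup U] [Module D U] [AddCommGroup V] [Module D V]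
    [AddCommGroup W] [Module D W] (f : V →ₗ[D] W) (g : U →ₗ[D] W)
    (h : ∀ u, g u ∈ LinearMap.range f) : ∃ σ : U →ₗ[D] V, ∀ u, f (σ u) = g u := by
  obtain ⟨s, hs⟩ := f.rangeRestrict.exists_rightInverse_of_surjective
    (LinearMap.range_rangeRestrict _)
  exact ⟨s ∘ₗ LinearMap.codRestrict _ _ h, fun u =>
    congrArg Subtype.val (LinearMap.congr_fun hs (LinearMap.codRestrict _ _ h u))⟩

end LowA

open LowA in
theorem low : Low := by
  intro K X D _ _ _ io I J w hw N _ _ ρ q hq hker
  let μ : Fr K (FreeGroup X) J →ₗ[K] Fr K (FreeGroup X) I :=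
    Finsupp.linearCombination K fun p : J × FreeGroup X => tr K _ I p.2 (w p.1)
  have hμi : Function.Injective μ := hw
  have hμe : ∀ g v, μ (tr K _ J g v) = tr K _ I g (μ v) := by
    intro g v
    induction v using Finsupp.induction_linear with
    | zero => simp
    | add a b ha hb => simp only [map_add, ha, hb]
    | single p k =>
      obtain ⟨j, u⟩ := p
      simp only [μ, tr_single, Finsupp.linearCombination_single, map_mul, map_smul,
        Module.End.mul_apply]
  have hex : Function.Exact μ q := by
    rw [LinearMap.exact_iff, hker, Finsupp.range_linearCombination, gen]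
  have hex' : Function.Exact (μ.baseChange D) (q.baseChange D) :=
    Module.Flat.lTensor_exact D hex
  have hμi' : Function.Injective (μ.baseChange D) :=
    Module.Flat.lTensor_preserves_injective_linearMap μ hμi
  let π : (J →₀ D) →ₗ[D] (I →₀ D) := Finsupp.linearCombination D fun j => th K io I (w j)
  have hπ : LinearMap.range π = sD io w := Finsupp.range_linearCombination D
  have hεω : ∀ δ, ep K io I (μ.baseChange D (se K X D J δ)) = π δ := by
    intro δ
    induction δ using Finsupp.induction_linear with
    | zero => simp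
    | add a b ha hb => simp only [map_add, ha, hb]
    | single j c =>
      rw [se_single, LinearMap.baseChange_tmul, ep_tmul]
      simp only [μ, π, Finsupp.linearCombination_single, map_one, one_smul, Module.End.one_apply]
  have hmem : ∀ δ : LinearMap.ker π, (μ.baseChange D ∘ₗ se K X D J ∘ₗ (LinearMap.ker π).subtype) δ ∈
      LinearMap.range (bd io (tr K _ I)) := by
    intro δ
    have h := f1 io (μ.baseChange D (se K X D J δ))
    rw [hεω, δ.2, map_zero, sub_zero] at h
    exact h
  obtain ⟨σ, hσ0⟩ := sec (D := D) (U := LinearMap.ker π) (V := X →₀ D ⊗[K] Fr K (FreeGroup X) I)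
    (W := D ⊗[K] Fr K (FreeGroup X) I) (bd io (tr K (FreeGroup X) I))
    (μ.baseChange D ∘ₗ se K X D J ∘ₗ (LinearMap.ker π).subtype) hmem
  have hσ : ∀ δ : LinearMap.ker π, bd io (tr K _ I) (σ δ) = μ.baseChange D (se K X D J δ) := hσ0
  have hZ : ∀ δ, (Finsupp.mapRange.linearMap (q.baseChange D) ∘ₗ σ) δ ∈ Z io ρ := by
    intro δ
    change bd io ρ (Finsupp.mapRange.linearMap (q.baseChange D) (σ δ)) = 0
    rw [nat io (tr K _ I) ρ q hq, hσ]
    exact hex'.apply_apply_eq_zero _
  obtain ⟨L, hL⟩ := (μ.baseChange D).exists_leftInverse_of_injective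
    (LinearMap.ker_eq_bot.2 hμi')
  have hinj0 : ∀ δ, Finsupp.mapRange.linearMap (q.baseChange D) (σ δ) = 0 → δ = 0 := by
    intro δ h0
    have h1 : Finsupp.mapRange.linearMap (μ.baseChange D) (Finsupp.mapRange.linearMap L (σ δ)) =
        σ δ := by
      refine Finsupp.ext fun x => ?_
      have hx : q.baseChange D (σ δ x) = 0 := DFunLike.congr_fun h0 x
      obtain ⟨y, hy⟩ := (hex' _).1 hx
      change μ.baseChange D (L (σ δ x)) = σ δ x
      rw [← hy]
      exact congrArg _ (LinearMap.congr_fun hL y)
    have h2 := nat io (tr K _ J) (tr K _ I) μ hμe (Finsupp.mapRange.linearMap L (σ δ))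
    rw [h1, hσ] at h2
    have h3 := congrArg (ep K io J) (hμi' h2)
    rw [ep_se, ep_bd] at h3
    exact Subtype.ext h3
  have hinj : Function.Injective (LinearMap.codRestrict _ _ hZ) := by
    intro a b hab
    have h5 : Finsupp.mapRange.linearMap (q.baseChange D) (σ a) =
        Finsupp.mapRange.linearMap (q.baseChange D) (σ b) := congrArg Subtype.val hab
    refine sub_eq_zero.1 (hinj0 _ ?_)
    rw [map_sub, map_sub, h5, sub_self]
  have hr := LinearMap.rank_le_of_injective _ hinj
  have h4 := LinearMap.rank_range_add_rank_ker π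
  rw [rank_finsupp_self', hπ] at h4
  rw [← h4]
  exact add_le_add le_rfl hr

end Pool.Agent.MP_6883a6_al.H36
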