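import Pool.Agent.MP_6883a6_al.H36.Spec

/-
Assembly of the rows.
-/

namespace Pool.Agent.MP_6883a6_al.H36

open TensorProduct

namespace MainA

lemma le_sub_of_add_le {a c : Cardinal} {r m : ℕ} (h1 : a + c ≤ m) (h2 : (r : Cardinal) ≤ c) :
    a ≤ (m - r : ℕ) := by
  have h3 : a + r ≤ m := (add_le_add_right h2 a).trans h1
  have ha : a < Cardinal.aleph0 :=
    ((self_le_add_right a _).trans h3).trans_lt Cardinal.natCast_lt_aleph0
  obtain ⟨n, rfl⟩ := Cardinal.lt_aleph0.1 ha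
  have h4 : n + r ≤ m := by exact_mod_cast h3
  exact_mod_cast (by omega : n ≤ m - r)

variable {K F D : Type} [Field K] [Group F] [DivisionRing D] [Algebra K D]

lemma io_ne_one (S : MN K F D) {g : F} (hg : g ≠ 1) : S.io g ≠ 1 := by
  intro h
  have h1 := S.co_left g g⁻¹ 1
  rw [mul_inv_cancel, mul_one, h, S.co_one, S.co_one_ne _ (inv_ne_one.2 hg)] at h1
  exact one_ne_zero h1

lemma rank_sD_le (io : F →* D) {I : Type} {n : ℕ} (w : Fin n → Fr K F I) :
    Module.rank D (sD io w) ≤ n := by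
  refine (rank_span_le _).trans ?_
  simpa using Cardinal.mk_range_le (f := fun j => th K io I (w j))

lemma one_le_rank_sD (S : MN K F D) {h : ℕ} (s : Fin h → F)
    (hs : Subgroup.closure (Set.range s) ≠ ⊥) :
    ((1 : ℕ) : Cardinal) ≤ Module.rank D (sD S.io (K := K) (I := Unit)
      fun k => Finsupp.single ((), s k) (1 : K) - Finsupp.single ((), 1) 1) := by
  obtain ⟨k, hk⟩ : ∃ k, s k ≠ 1 := by
    by_contra hc
    push Not at hc
    refine hs ((Subgroup.closure_eq_bot_iff).2 ?_)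
    rintro _ ⟨k, rfl⟩
    exact hc k
  rw [Nat.cast_one, Cardinal.one_le_iff_ne_zero]
  intro hb
  rw [Submodule.rank_eq_zero] at hb
  have h1 : th K S.io Unit (Finsupp.single ((), s k) (1 : K) - Finsupp.single ((), 1) 1) = 0 := by
    rw [← Submodule.mem_bot D, ← hb]
    exact Submodule.subset_span ⟨k, rfl⟩
  rw [map_sub, th_single, th_single, one_smul, one_smul, sub_eq_zero, map_one] at h1
  exact io_ne_one S hk (Finsupp.single_injective _ h1)

end MainA

open MainA

theorem main (ho : Ord) (hser : Ser) (hsub : Sub) (ht : Tree) (hl : Low) (hu : Upp) (hi : Inner)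
    (h1 : Cos1) (h2 : Cos2) : Main := by
  intro K X _ d m h r r' s hs v hr J b hb w' hw'
  obtain ⟨lt, hlt, hmul⟩ := ho X
  obtain ⟨D, _, _, ⟨S⟩⟩ := hser K (FreeGroup X) lt hlt hmul
  obtain ⟨hac, hz⟩ := ht K X D S
  let ρ1 : Representation K (FreeGroup X) (Fr K (FreeGroup X) (Fin d) ⧸ gen v) :=
    (tr K (FreeGroup X) (Fin d)).quotient (gen v) fun g x hx => tr_mem_gen v g hx
  have e1 : ∀ g x, (gen v).mkQ (tr K _ (Fin d) g x) = ρ1 g ((gen v).mkQ x) := fun _ _ => rfl
  have hA : Module.rank D (Z S.io ρ1) ≤ (m - r : ℕ) := by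
    obtain ⟨k, w, hk, hw⟩ := hi K X D S.io hac d m v
    refine le_sub_of_add_le (hu K X D S.io (Fin d) (hz _) m v _ ρ1 (gen v).mkQ e1
      (gen v).mkQ_surjective (gen v).ker_mkQ) (le_trans ?_ hk)
    exact_mod_cast hr k w hw
  obtain ⟨q2, e2, hq2, hk2⟩ := h2 K (FreeGroup X) h s
  have hB := le_sub_of_add_le (hu K X D S.io Unit (hz _) h _ _ _ q2 e2 hq2 hk2)
    (one_le_rank_sD S s hs)
  have hC := hsub K X D S _ _ ρ1 _ _ _ hA hB
  obtain ⟨hind, q', e', hk'⟩ := h1 K (FreeGroup X) (Fin d) J (Subgroup.closure (Set.range s)) _ ρ1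
    (gen v).mkQ e1 b (by rw [Submodule.ker_mkQ]; exact hb)
  refine (hl K X D S.io (Fin d) J b hind _ _ q' e' hk').trans ?_
  rw [Nat.cast_add]
  refine add_le_add (le_trans (Submodule.rank_mono ?_) (rank_sD_le S.io w')) hC
  rw [sD, Submodule.span_le]
  rintro _ ⟨j, rfl⟩
  exact th_mem_sD S.io w' (hw' j)

end Pool.Agent.MP_6883a6_al.H36
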