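import Pool.Agent.MP_6883a6_al.H36.Spec
import Pool.Agent.MP_e50591_al.H50.Order

/-! Row Ord: free groups are bi-orderable. -/

set_option autoImplicit false

namespace Pool.Agent.MP_6883a6_al.H36

namespace OrdA

open Finsupp Pool.Agent.MP_e50591_al.H50

theorem exists_bi_order {α : Type} [DecidableEq α] : ∃ (K : Type) (_ : LinearOrder K) (key : FreeGroup α → K),
    Function.Injective key ∧ 
      ∀ g₁ g₂ k h, key g₁ < key g₂ → key (k * g₁ * h) < key (k * g₂ * h) := by
  obtain ⟨lo, wf⟩ := exists_wellFoundedLT (List α × List α)
  let key : FreeGroup α → Lex (ℕ ×ₗ (List α × List α) → ℤ) := fun g => toLex fun i =>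
    if (ofLex i).2.2.length = (ofLex i).2.1.length + (ofLex i).1 then
      (mag g).val (single (ofLex i).2.1 1) (ofLex i).2.2 else 0
  have low : ∀ g (w' w : List α), w.length < w'.length → (mag g).val (single w' 1) w = 0 := by
    intro g w' w h
    have := (raise_mag g).entry w' w (by omega)
    rw [LinearMap.sub_apply, Finsupp.sub_apply, Module.End.one_apply,
      single_eq_of_ne (by rintro rfl; omega)] at this
    simpa using this
  refine ⟨_, inferInstance, key, fun g₁ g₂ h => mag_injective (Units.ext ?_), ?_⟩
  · ext w' w
    rcases Nat.lt_or_ge w.length w'.length with h1 | h1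
    · simp [low _ _ _ h1]
    · have := congrFun (toLex.injective h) (toLex (w.length - w'.length, (w', w)))
      simpa [Nat.add_sub_cancel' h1] using this
  · rintro g₁ g₂ k h ⟨i, h1, h2⟩
    set A := (mag g₂).val - (mag g₁).val with hA
    have hr : Raise (ofLex i).1 A := raise_of_single fun w' w hw => by
      rcases Nat.lt_or_ge w.length w'.length with h3 | h3
      · simp [hA, low _ _ _ h3]
      · have := h1 (toLex (w.length - w'.length, (w', w)))
          (Prod.Lex.lt_iff.2 (Or.inl (by simp only [ofLex_toLex]; omega)))
        simp only [key, Pi.toLex_apply, ofLex_toLex, Nat.add_sub_cancel' h3, if_true] at this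
        simp [hA, this]
    have hc : Raise ((ofLex i).1 + 1)
        ((mag (k * g₂ * h)).val - (mag (k * g₁ * h)).val - A) := by
      have : (mag (k * g₂ * h)).val - (mag (k * g₁ * h)).val - A =
          ((mag k).val - 1) * A * ((mag h).val - 1) +
            (((mag k).val - 1) * A + A * ((mag h).val - 1)) := by
        simp only [map_mul, Units.val_mul, hA]; noncomm_ring
      rw [this]
      exact ((((raise_mag _).mul hr).mul (raise_mag _)).mono (by omega)).add
        (((raise_mag _).mul hr).add ((hr.mul (raise_mag _)).mono (by omega)))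
    have key2 : ∀ j : ℕ ×ₗ (List α × List α), j ≤ i →
        key (k * g₂ * h) j - key (k * g₁ * h) j = key g₂ j - key g₁ j := by
      intro j hj
      have hj1 : (ofLex j).1 ≤ (ofLex i).1 := Prod.Lex.monotone_fst _ _ hj
      simp only [key, Pi.toLex_apply]
      split_ifs with h3
      · have := hc.entry (ofLex j).2.1 (ofLex j).2.2 (by omega)
        simp only [hA, LinearMap.sub_apply, Finsupp.sub_apply] at this
        linarith
      · rfl
    refine ⟨i, fun j hj => ?_, ?_⟩
    · have := key2 j hj.le
      have h3 := h1 j hj
      linarith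
    · have := key2 i le_rfl
      linarith

end OrdA

theorem ord : Ord := by
  intro X
  classical
  obtain ⟨K, _, key, hinj, hmul⟩ := OrdA.exists_bi_order (α := X)
  refine ⟨fun u v => key u < key v, ?_, fun g h u v huv => hmul u v g h huv⟩
  exact
    { trichotomous := fun a b h1 h2 => hinj (le_antisymm (not_lt.1 h2) (not_lt.1 h1))
      irrefl := fun a => lt_irrefl _
      trans := fun a b c => lt_trans }

end Pool.Agent.MP_6883a6_al.H36
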