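import Pool.Agent.MP_6883a6_al.H36.Spec

/-
Row Ser: the Malcev-Neumann division ring of series on an ordered group.
-/

namespace Pool.Agent.MP_6883a6_al.H36

namespace SerA

open Function

set_option linter.unusedSectionVars false

section order
variable {F : Type} [Group F] [LinearOrder F] [MulLeftMono F] [MulRightMono F]

lemma pwo_mul {s t : Set F} (hs : s.IsPWO) (ht : t.IsPWO) :
    ((fun x : F × F => x.1 * x.2) '' (s ×ˢ t)).IsPWO :=
  (hs.prod ht).image_of_monotone fun _ _ h => mul_le_mul' h.1 h.2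

lemma fin_conv {s t : Set F} (hs : s.IsPWO) (ht : t.IsPWO) (p : F) :
    {u | u ∈ s ∧ u⁻¹ * p ∈ t}.Finite := by
  by_contra h
  have h : {u | u ∈ s ∧ u⁻¹ * p ∈ t}.Infinite := h
  obtain ⟨g, hg⟩ := hs.exists_monotone_subseq (f := fun n => (h.natEmbedding _ n : F))
    fun n => (h.natEmbedding _ n).2.1
  obtain ⟨m, n, mn, h2⟩ := ht fun n => ⟨_, (h.natEmbedding _ (g n)).2.2⟩
  have h1 : (h.natEmbedding _ (g m) : F) ≤ h.natEmbedding _ (g n) := hg mn.le
  have h3 : (h.natEmbedding _ (g n) : F) ≤ h.natEmbedding _ (g m) := by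
    have h2' : (h.natEmbedding _ (g m) : F)⁻¹ * p ≤ (h.natEmbedding _ (g n) : F)⁻¹ * p := h2
    exact inv_le_inv_iff.1 ((mul_le_mul_iff_right p).1 h2')
  exact mn.ne (g.injective ((h.natEmbedding _).injective (Subtype.ext (le_antisymm h1 h3))))

lemma pwo_closure {s : Set F} (hpos : ∀ x ∈ s, 1 ≤ x) (h : s.IsPWO) :
    (Submonoid.closure s : Set F).IsPWO := by
  rw [Submonoid.closure_eq_image_prod]
  refine (h.partiallyWellOrderedOn_sublistForall₂ (· ≤ ·)).image_of_monotone_on ?_
  exact fun l1 _ l2 hl2 h12 => h12.prod_le_prod' fun x hx => hpos x <| hl2 x hx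

end order

variable (K F : Type) [Field K] [Group F] [LinearOrder F]

/-- functions with well ordered support -/
def sub : Submodule K (F → K) where
  carrier := {f | (support f).IsPWO}
  zero_mem' := by
    change (support (0 : F → K)).IsPWO
    rw [support_zero]
    exact Set.isPWO_empty
  add_mem' {f g} hf hg := (Set.IsPWO.union hf hg).mono (support_add f g)
  smul_mem' c f hf := Set.IsPWO.mono hf (support_const_smul_subset c f)

/-- the series ring -/
def D : Type := sub K F

instance : AddCommGroup (D K F) := inferInstanceAs (AddCommGroup (sub K F))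
instance : Module K (D K F) := inferInstanceAs (Module K (sub K F))

variable {K F}

/-- the coefficients -/
def co (u : F) : D K F →ₗ[K] K := (LinearMap.proj u) ∘ₗ (sub K F).subtype

/-- constructor -/
def mk (f : F → K) (hf : (support f).IsPWO) : D K F := (⟨f, hf⟩ : sub K F)

@[simp] lemma co_mk (f : F → K) (hf : (support f).IsPWO) (u : F) : co u (mk f hf) = f u := rfl

lemma ext {a b : D K F} (h : ∀ u, co u a = co u b) : a = b := Subtype.ext (funext h)

lemma pwo (a : D K F) : (support fun u => co u a).IsPWO := (a : sub K F).2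

/-- monomials -/
def mono (g : F) : D K F := mk (fun u => if u = g then 1 else 0)
  ((Set.isPWO_singleton g).mono fun u hu => by
    by_contra h
    exact hu (if_neg h))

lemma co_mono (g u : F) : co u (mono g : D K F) = if u = g then 1 else 0 := rfl

variable [MulLeftMono F] [MulRightMono F]

lemma fin_co (a b : D K F) (p : F) : {u | co u a ≠ 0 ∧ co (u⁻¹ * p) b ≠ 0}.Finite :=
  fin_conv (pwo a) (pwo b) p

lemma fin_sup (a b : D K F) (p : F) :
    HasFiniteSupport fun u => co u a * co (u⁻¹ * p) b :=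
  (fin_co a b p).subset fun _ hu => mul_ne_zero_iff.1 hu

lemma mem_mul (a b : D K F) (p : F) (h : ∑ᶠ u, co u a * co (u⁻¹ * p) b ≠ 0) :
    p ∈ (fun x : F × F => x.1 * x.2) '' ((support fun u => co u a) ×ˢ support fun u => co u b) := by
  obtain ⟨u, hu⟩ : ∃ u, co u a * co (u⁻¹ * p) b ≠ 0 := by
    by_contra! h'
    exact h (finsum_eq_zero_of_forall_eq_zero h')
  exact ⟨(u, u⁻¹ * p), mul_ne_zero_iff.1 hu, mul_inv_cancel_left u p⟩

noncomputable instance : Mul (D K F) where
  mul a b := mk (fun p => ∑ᶠ u, co u a * co (u⁻¹ * p) b)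
    ((pwo_mul (pwo a) (pwo b)).mono fun p hp => mem_mul a b p hp)

instance : One (D K F) := ⟨mono 1⟩

lemma co_mul (a b : D K F) (p : F) : co p (a * b) = ∑ᶠ u, co u a * co (u⁻¹ * p) b := rfl

lemma co_mono_mul (g : F) (a : D K F) (p : F) : co p (mono g * a) = co (g⁻¹ * p) a := by
  rw [co_mul, finsum_eq_single _ g]
  · rw [co_mono, if_pos rfl, one_mul]
  · intro u hu
    rw [co_mono, if_neg hu, zero_mul]

lemma co_mul_mono (g : F) (a : D K F) (p : F) : co p (a * mono g) = co (p * g⁻¹) a := by
  rw [co_mul, finsum_eq_single _ (p * g⁻¹)]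
  · rw [co_mono, if_pos (by group), mul_one]
  · intro u hu
    rw [co_mono, if_neg, mul_zero]
    intro h
    apply hu
    rw [← h]
    group

lemma finsum_swap {α β : Type} (f : α → β → K)
    (hf : HasFiniteSupport fun x : α × β => f x.1 x.2) :
    ∑ᶠ (a) (b), f a b = ∑ᶠ (b) (a), f a b := by
  have hf' : HasFiniteSupport fun x : β × α => f x.2 x.1 :=
    (Set.Finite.preimage (f := Prod.swap) (Prod.swap_injective.injOn) hf).subset fun _ hx => hx
  rw [← finsum_curry _ hf, ← finsum_curry _ hf']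
  exact (finsum_comp_equiv (Equiv.prodComm β α) (f := fun x : α × β => f x.1 x.2)).symm

lemma mul_assoc' (a b c : D K F) : a * b * c = a * (b * c) := by
  refine ext fun p => ?_
  have h1 : co p (a * b * c) = ∑ᶠ (u) (v), co v a * co (v⁻¹ * u) b * co (u⁻¹ * p) c := by
    rw [co_mul]
    refine finsum_congr fun u => ?_
    rw [co_mul, finsum_mul]
  have h2 : co p (a * (b * c)) = ∑ᶠ (v) (u), co v a * co (v⁻¹ * u) b * co (u⁻¹ * p) c := by
    rw [co_mul]
    refine finsum_congr fun v => ?_
    rw [co_mul, mul_finsum, ← finsum_comp_equiv (Equiv.mulLeft v⁻¹)]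
    refine finsum_congr fun u => ?_
    rw [Equiv.coe_mulLeft, mul_assoc]
    have : (v⁻¹ * u)⁻¹ * (v⁻¹ * p) = u⁻¹ * p := by group
    rw [this]
  rw [h1, h2]
  refine finsum_swap (fun u v => co v a * co (v⁻¹ * u) b * co (u⁻¹ * p) c) ?_
  have hU := fin_conv (pwo_mul (pwo a) (pwo b)) (pwo c) p
  refine (hU.biUnion fun u _ => (fin_co a b u).image fun v => (u, v)).subset ?_
  rintro ⟨u, v⟩ h
  have h := mul_ne_zero_iff.1 h
  have h' := mul_ne_zero_iff.1 h.1
  refine Set.mem_biUnion (x := u) ⟨⟨(v, v⁻¹ * u), h', mul_inv_cancel_left v u⟩, h.2⟩ ⟨v, h', rfl⟩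

lemma mul_add' (a b c : D K F) : a * (b + c) = a * b + a * c := by
  refine ext fun p => ?_
  rw [map_add, co_mul, co_mul, co_mul, ← finsum_add_distrib (fin_sup a b p) (fin_sup a c p)]
  refine finsum_congr fun u => ?_
  rw [map_add, mul_add]

lemma add_mul' (a b c : D K F) : (a + b) * c = a * c + b * c := by
  refine ext fun p => ?_
  rw [map_add, co_mul, co_mul, co_mul, ← finsum_add_distrib (fin_sup a c p) (fin_sup b c p)]
  refine finsum_congr fun u => ?_
  rw [map_add, add_mul]

lemma smul_mul' (r : K) (a b : D K F) : r • a * b = r • (a * b) := by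
  refine ext fun p => ?_
  rw [map_smul, co_mul, co_mul, smul_eq_mul, mul_finsum]
  refine finsum_congr fun u => ?_
  rw [map_smul, smul_eq_mul, mul_assoc]

lemma mul_smul' (r : K) (a b : D K F) : a * r • b = r • (a * b) := by
  refine ext fun p => ?_
  rw [map_smul, co_mul, co_mul, smul_eq_mul, mul_finsum]
  refine finsum_congr fun u => ?_
  rw [map_smul, smul_eq_mul, mul_left_comm]

noncomputable instance : Ring (D K F) where
  __ := (inferInstance : AddCommGroup (D K F))
  mul_assoc := mul_assoc'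
  one_mul a := ext fun p => (co_mono_mul 1 a p).trans (by rw [inv_one, one_mul])
  mul_one a := ext fun p => (co_mul_mono 1 a p).trans (by rw [inv_one, mul_one])
  left_distrib := mul_add'
  right_distrib := add_mul'
  zero_mul a := ext fun p => by
    rw [co_mul, map_zero]
    exact finsum_eq_zero_of_forall_eq_zero fun u => by rw [map_zero, zero_mul]
  mul_zero a := ext fun p => by
    rw [co_mul, map_zero]
    exact finsum_eq_zero_of_forall_eq_zero fun u => by rw [map_zero, mul_zero]

noncomputable instance : Algebra K (D K F) := Algebra.ofModule smul_mul' mul_smul'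

lemma co_one (u : F) : co u (1 : D K F) = if u = 1 then 1 else 0 := rfl

instance : Nontrivial (D K F) := ⟨⟨0, 1, fun h => by
  have := congrArg (co (1 : F)) h
  rw [map_zero, co_one, if_pos rfl] at this
  exact zero_ne_one this⟩⟩

lemma mono_mul (g h : F) : (mono (g * h) : D K F) = mono g * mono h := by
  refine ext fun p => ?_
  rw [co_mono_mul, co_mono, co_mono]
  exact if_congr (by rw [inv_mul_eq_iff_eq_mul]) rfl rfl

lemma geom (e : D K F) (he : ∀ u, co u e ≠ 0 → 1 < u) : ∃ c : D K F, (1 - e) * c = 1 := by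
  classical
  have hS := pwo_closure (s := support fun u => co u e) (fun x hx => (he x hx).le) (pwo e)
  set S := Submonoid.closure (support fun u => co u e) with hSdef
  have hwf : WellFounded fun a b : F => a < b ∧ a ∈ (S : Set F) ∧ b ∈ (S : Set F) :=
    Set.wellFoundedOn_iff.1 hS.isWF
  let γ : F → K := hwf.fix fun p rec => (if p = 1 then 1 else 0) +
    ∑ᶠ u, if h : u⁻¹ * p < p ∧ u⁻¹ * p ∈ (S : Set F) ∧ p ∈ (S : Set F) then
      co u e * rec (u⁻¹ * p) h else 0
  have hγ : ∀ p, γ p = (if p = 1 then 1 else 0) +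
      ∑ᶠ u, if u⁻¹ * p < p ∧ u⁻¹ * p ∈ (S : Set F) ∧ p ∈ (S : Set F) then
        co u e * γ (u⁻¹ * p) else 0 := fun p => by
    have := hwf.fix_eq (C := fun _ => K) (fun p rec => (if p = 1 then 1 else 0) +
      ∑ᶠ u, if h : u⁻¹ * p < p ∧ u⁻¹ * p ∈ (S : Set F) ∧ p ∈ (S : Set F) then
        co u e * rec (u⁻¹ * p) h else 0) p
    exact this
  have hsup : ∀ p, γ p ≠ 0 → p ∈ S := fun p hp => by
    by_contra hn
    apply hp
    rw [hγ, if_neg (fun h => hn (by rw [h]; exact S.one_mem)), zero_add]
    exact finsum_eq_zero_of_forall_eq_zero fun u => if_neg fun h => hn h.2.2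
  refine ⟨mk γ (hS.mono hsup), ?_⟩
  rw [sub_mul, one_mul]
  refine ext fun p => ?_
  rw [map_sub, co_mul, co_mk, co_one, hγ, sub_eq_iff_eq_add, add_right_inj]
  refine finsum_congr fun u => ?_
  rw [co_mk]
  by_cases h1 : co u e = 0
  · rw [h1, zero_mul, ite_self]
  by_cases h2 : γ (u⁻¹ * p) = 0
  · rw [h2, mul_zero, ite_self]
  refine if_pos ⟨?_, hsup _ h2, ?_⟩
  · exact mul_lt_of_lt_one_left' p (inv_lt_one'.2 (he u h1))
  · have : p = u * (u⁻¹ * p) := (mul_inv_cancel_left u p).symm
    rw [this]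
    exact S.mul_mem (Submonoid.subset_closure h1) (hsup _ h2)

lemma exists_right_inv (a : D K F) (ha : a ≠ 0) : ∃ b, a * b = 1 := by
  have hne : (support fun u => co u a).Nonempty := by
    by_contra h
    apply ha
    refine ext fun u => ?_
    by_contra hu
    rw [map_zero] at hu
    exact h ⟨u, hu⟩
  obtain ⟨g, hg, hmin⟩ : ∃ g, co g a ≠ 0 ∧ ∀ u, co u a ≠ 0 → g ≤ u :=
    ⟨_, (pwo a).isWF.min_mem hne, fun u hu => (pwo a).isWF.min_le hne hu⟩
  obtain ⟨c, hc⟩ := geom (1 - (co g a)⁻¹ • (mono g⁻¹ * a)) fun u hu => by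
    rw [map_sub, map_smul, co_mono_mul, inv_inv, co_one, smul_eq_mul] at hu
    have hu1 : u ≠ 1 := by
      rintro rfl
      rw [if_pos rfl, mul_one, inv_mul_cancel₀ hg, sub_self] at hu
      exact hu rfl
    rw [if_neg hu1, zero_sub, neg_ne_zero] at hu
    have := hmin _ (mul_ne_zero_iff.1 hu).2
    exact lt_of_le_of_ne ((le_mul_iff_one_le_right' g).1 this) hu1.symm
  rw [sub_sub_cancel, smul_mul_assoc, mul_assoc] at hc
  refine ⟨(co g a)⁻¹ • (c * mono g⁻¹), ?_⟩
  have h1 : (mono g : D K F) * mono g⁻¹ = 1 := by rw [← mono_mul, mul_inv_cancel]; rfl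
  have h2 : (co g a)⁻¹ • (a * c) = mono g := by
    have := congrArg (fun x => mono g * x) hc
    simp only [mul_smul_comm, ← mul_assoc, h1, one_mul, mul_one] at this
    exact this
  rw [mul_smul_comm, ← mul_assoc, ← smul_mul_assoc, h2, h1]

lemma isUnit_or (a : D K F) : IsUnit a ∨ a = 0 := by
  by_cases ha : a = 0
  · exact Or.inr ha
  left
  obtain ⟨b, hb⟩ := exists_right_inv a ha
  have hb0 : b ≠ 0 := by
    rintro rfl
    rw [mul_zero] at hb
    exact zero_ne_one hb
  obtain ⟨c, hc⟩ := exists_right_inv b hb0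
  have : a = c := by rw [← mul_one a, ← hc, ← mul_assoc, hb, one_mul]
  exact ⟨⟨a, b, hb, by rw [this, hc]⟩, rfl⟩

noncomputable instance : DivisionRing (D K F) := DivisionRing.ofIsUnitOrEqZero isUnit_or

/-- the coefficientwise product -/
noncomputable def had : (F → K) →ₗ[K] D K F →ₗ[K] D K F :=
  LinearMap.mk₂ K
    (fun f a => mk (fun u => f u * co u a) ((pwo a).mono fun _ hu => (mul_ne_zero_iff.1 hu).2))
    (fun f g a => ext fun u => by rw [map_add, co_mk, co_mk, co_mk, Pi.add_apply, add_mul])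
    (fun c f a => ext fun u => by
      rw [map_smul, co_mk, co_mk, Pi.smul_apply, smul_eq_mul, smul_eq_mul, mul_assoc])
    (fun f a b => ext fun u => by rw [map_add, co_mk, co_mk, co_mk, map_add, mul_add])
    (fun c f a => ext fun u => by
      rw [map_smul, co_mk, co_mk, map_smul, smul_eq_mul, smul_eq_mul, mul_left_comm])

/-- the structure -/
noncomputable def mn : MN K F (D K F) where
  io := { toFun := mono, map_one' := rfl, map_mul' := mono_mul }
  lt := (· < ·)
  tot := inferInstance
  lt_mul g _ _ h := mul_lt_mul_right h g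
  co := co
  ext0 a h := ext fun u => by rw [h, map_zero]
  wf a := (pwo a).isWF
  co_one := if_pos rfl
  co_one_ne _ hu := if_neg hu
  co_left g u a := (co_mono_mul g a _).trans (by rw [inv_mul_cancel_left])
  co_right g u a := (co_mul_mono g a _).trans (by rw [mul_inv_cancel_right])
  lead a b u ha hb := by
    rw [co_mul, finsum_eq_single _ u]
    · rw [inv_mul_cancel]
    · intro v hv
      rcases lt_or_gt_of_ne hv with h | h
      · rw [ha v h, zero_mul]
      · rw [hb _ (inv_mul_lt_one_iff.2 h), mul_zero]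
  had := had
  co_had _ _ _ := rfl
  fin := fin_co

end SerA

theorem ser : Ser := by
  intro K F _ _ lt ht hl
  classical
  let _ : LinearOrder F := linearOrderOfSTO lt
  have hle : ∀ g h u v : F, u ≤ v → g * u * h ≤ g * v * h := fun g h u v huv => by
    rcases eq_or_lt_of_le huv with rfl | h1
    · exact le_rfl
    · exact le_of_lt (hl g h u v h1)
  have : MulLeftMono F := ⟨fun g u v huv => by simpa using hle g 1 u v huv⟩
  have : MulRightMono F := ⟨fun g u v huv => by simpa using hle 1 g u v huv⟩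
  exact ⟨SerA.D K F, inferInstance, inferInstance, ⟨SerA.mn⟩⟩

end Pool.Agent.MP_6883a6_al.H36
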