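import Mathlib

/-
Row statements for the theorem: the Hanna Neumann type inequality over free group algebras holds
once the ambient rank is replaced by the inner rank. Plan: team store file 6883a6_plan.md.
-/

namespace Pool.Agent.MP_6883a6_al.H36

open TensorProduct

/-- a division ring of series on an ordered group, seen through its coefficient functionals -/
structure MN (K F D : Type) [Field K] [Group F] [DivisionRing D] [Algebra K D] where
  io : F →* D
  lt : F → F → Prop
  tot : IsStrictTotalOrder F lt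
  lt_mul : ∀ g u v, lt u v → lt (g * u) (g * v)
  co : F → D →ₗ[K] K
  ext0 : ∀ δ, (∀ u, co u δ = 0) → δ = 0
  wf : ∀ δ, {u | co u δ ≠ 0}.WellFoundedOn lt
  co_one : co 1 1 = 1
  co_one_ne : ∀ u, u ≠ 1 → co u 1 = 0
  co_left : ∀ g u δ, co (g * u) (io g * δ) = co u δ
  co_right : ∀ g u δ, co (u * g) (δ * io g) = co u δ
  lead : ∀ δ γ u, (∀ v, lt v u → co v δ = 0) → (∀ v, lt v 1 → co v γ = 0) →
    co u (δ * γ) = co u δ * co 1 γ
  had : (F → K) →ₗ[K] D →ₗ[K] D
  co_had : ∀ f δ u, co u (had f δ) = f u * co u δ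
  fin : ∀ δ γ p, {u | co u δ ≠ 0 ∧ co (u⁻¹ * p) γ ≠ 0}.Finite

section
variable {K F D : Type} [Field K] [Group F] [DivisionRing D] [Algebra K D]

/-- the diagonal action on `D ⊗ A` -/
noncomputable def act (io : F →* D) {A : Type} [AddCommGroup A] [Module K A]
    (ρ : Representation K F A) (g : F) : D ⊗[K] A →ₗ[D] D ⊗[K] A :=
  AlgebraTensorModule.map (LinearMap.toSpanSingleton D D (io g⁻¹)) (ρ g)

@[simp] lemma act_tmul (io : F →* D) {A : Type} [AddCommGroup A] [Module K A]
    (ρ : Representation K F A) (g : F) (δ : D) (a : A) :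
    act io ρ g (δ ⊗ₜ a) = (δ * io g⁻¹) ⊗ₜ ρ g a := by
  simp [act]

/-- the free representation on `I` generators -/
abbrev Fr (K F I : Type) [Field K] : Type := I × F →₀ K

/-- translation -/
noncomputable def tr (K F I : Type) [Field K] [Group F] : Representation K F (Fr K F I) where
  toFun g := Finsupp.lmapDomain K K fun p => (p.1, g * p.2)
  map_one' := by ext; simp
  map_mul' g h := by ext; simp [mul_assoc]

@[simp] lemma tr_single {I : Type} (g : F) (i : I) (u : F) (c : K) :
    tr K F I g (Finsupp.single (i, u) c) = Finsupp.single (i, g * u) c := by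
  simp [tr]

lemma tr_apply {I : Type} (g : F) (v : Fr K F I) (i : I) (u : F) :
    tr K F I g v (i, g * u) = v (i, u) :=
  Finsupp.mapDomain_apply (f := fun p : I × F => (p.1, g * p.2))
    (fun _ _ h => Prod.ext (Prod.ext_iff.1 h).1 (mul_left_cancel (Prod.ext_iff.1 h).2)) v (i, u)

/-- the subrepresentation generated by a family -/
noncomputable def gen {I J : Type} (w : J → Fr K F I) : Submodule K (Fr K F I) :=
  Submodule.span K (Set.range fun p : J × F => tr K F I p.2 (w p.1))

/-- the family is free over the group algebra -/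
def Ind {I J : Type} (w : J → Fr K F I) : Prop :=
  LinearIndependent K fun p : J × F => tr K F I p.2 (w p.1)

lemma tr_mem_gen {I J : Type} (w : J → Fr K F I) (g : F) {v : Fr K F I} (hv : v ∈ gen w) :
    tr K F I g v ∈ gen w := by
  have : (gen w).map (tr K F I g) ≤ gen w := by
    rw [gen, Submodule.map_span, Submodule.span_le]
    rintro _ ⟨_, ⟨p, rfl⟩, rfl⟩
    refine Submodule.subset_span ⟨(p.1, g * p.2), ?_⟩
    simp only [map_mul, Module.End.mul_apply]
  exact this ⟨v, hv, rfl⟩

lemma mem_gen {I J : Type} (w : J → Fr K F I) (j : J) : w j ∈ gen w :=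
  Submodule.subset_span ⟨(j, 1), by simp⟩

/-- the map to `D ^ I` -/
noncomputable def th (K : Type) [Field K] [Algebra K D] (io : F →* D) (I : Type) :
    Fr K F I →ₗ[K] (I →₀ D) :=
  Finsupp.linearCombination K fun p : I × F => Finsupp.single p.1 (io p.2)

@[simp] lemma th_single (io : F →* D) {I : Type} (i : I) (u : F) (c : K) :
    th K io I (Finsupp.single (i, u) c) = c • Finsupp.single i (io u) := by
  simp [th]

lemma th_tr (io : F →* D) {I : Type} (g : F) (v : Fr K F I) :
    th K io I (tr K F I g v) = io g • th K io I v := by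
  induction v using Finsupp.induction_linear with
  | zero => simp
  | add v w hv hw => simp only [map_add, hv, hw, smul_add]
  | single p c =>
    obtain ⟨i, u⟩ := p
    rw [tr_single, th_single, th_single, smul_comm (io g) c, Finsupp.smul_single (io g), map_mul,
      smul_eq_mul]

/-- the span over `D` of a family -/
noncomputable def sD (io : F →* D) {I J : Type} (w : J → Fr K F I) : Submodule D (I →₀ D) :=
  Submodule.span D (Set.range fun j => th K io I (w j))

lemma th_mem_sD (io : F →* D) {I J : Type} (w : J → Fr K F I) {v : Fr K F I} (hv : v ∈ gen w) :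
    th K io I v ∈ sD io w := by
  have : gen w ≤ ((sD io w).restrictScalars K).comap (th K io I) := by
    rw [gen, Submodule.span_le]
    rintro _ ⟨p, rfl⟩
    change th K io I _ ∈ sD io w
    rw [th_tr]
    exact Submodule.smul_mem _ _ (Submodule.subset_span ⟨p.1, rfl⟩)
  exact this hv

end

section
variable {K X D : Type} [Field K] [DivisionRing D] [Algebra K D]

/-- the boundary map -/
noncomputable def bd (io : FreeGroup X →* D) {A : Type} [AddCommGroup A] [Module K A]
    (ρ : Representation K (FreeGroup X) A) : (X →₀ D ⊗[K] A) →ₗ[D] D ⊗[K] A :=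
  Finsupp.lsum ℕ fun x => act io ρ (FreeGroup.of x) - LinearMap.id

@[simp] lemma bd_single (io : FreeGroup X →* D) {A : Type} [AddCommGroup A] [Module K A]
    (ρ : Representation K (FreeGroup X) A) (x : X) (c : D ⊗[K] A) :
    bd io ρ (Finsupp.single x c) = act io ρ (FreeGroup.of x) c - c := by
  simp [bd]

/-- cycles -/
noncomputable def Z (io : FreeGroup X →* D) {A : Type} [AddCommGroup A] [Module K A]
    (ρ : Representation K (FreeGroup X) A) : Submodule D (X →₀ D ⊗[K] A) :=
  LinearMap.ker (bd io ρ)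

/-- vector spaces over `D` have no cycles -/
def Acyc (K : Type) [Field K] [Algebra K D] (io : FreeGroup X →* D) : Prop :=
  ∀ (W : Type) [AddCommGroup W] [Module D W] [Module K W] [IsScalarTower K D W]
    (ρ : Representation K (FreeGroup X) W), (∀ g w, ρ g w = io g • w) → Z io ρ = ⊥

end

/- Row Ord -/

def Ord : Prop :=
  ∀ X : Type, ∃ lt : FreeGroup X → FreeGroup X → Prop, IsStrictTotalOrder _ lt ∧
    ∀ g h u v, lt u v → lt (g * u * h) (g * v * h)

/- Row Ser -/

def Ser : Prop :=
  ∀ (K F : Type) [Field K] [Group F] (lt : F → F → Prop), IsStrictTotalOrder F lt →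
    (∀ g h u v, lt u v → lt (g * u * h) (g * v * h)) →
    ∃ (D : Type) (_ : DivisionRing D) (_ : Algebra K D), Nonempty (MN K F D)

/- Row Val -/

/-- coefficient maps on a vector space over `D` -/
structure Cf {K F D : Type} [Field K] [Group F] [DivisionRing D] [Algebra K D] (S : MN K F D)
    {E W : Type} [AddCommGroup E] [Module D E] [Module K E] [AddCommGroup W] [Module K W]
    (cf : F → E →ₗ[K] W) : Prop where
  ext0 : ∀ c, (∀ u, cf u c = 0) → c = 0
  wf : ∀ c, {u | cf u c ≠ 0}.WellFoundedOn S.lt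
  lin : ∀ ψ : W →ₗ[K] K, ∃ Ψ : E →ₗ[D] D, ∀ u c, S.co u (Ψ c) = ψ (cf u c)

/-- leading coefficients -/
noncomputable def Ld {K F D : Type} [Field K] [Group F] [DivisionRing D] [Algebra K D] (S : MN K F D)
    {E W : Type} [AddCommGroup E] [Module D E] [Module K E] [IsScalarTower K D E]
    [AddCommGroup W] [Module K W] (cf : F → E →ₗ[K] W) (V : Submodule D E) : Submodule K W :=
  (V.restrictScalars K ⊓ ⨅ v : {v // S.lt v 1}, LinearMap.ker (cf v)).map (cf 1)

lemma mem_Ld {K F D : Type} [Field K] [Group F] [DivisionRing D] [Algebra K D] (S : MN K F D)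
    {E W : Type} [AddCommGroup E] [Module D E] [Module K E] [IsScalarTower K D E]
    [AddCommGroup W] [Module K W] (cf : F → E →ₗ[K] W) (V : Submodule D E) (l : W) :
    l ∈ Ld S cf V ↔ ∃ c ∈ V, (∀ v, S.lt v 1 → cf v c = 0) ∧ cf 1 c = l := by
  simp [Ld, and_assoc]

def Val : Prop :=
  ∀ (K F D : Type) [Field K] [Group F] [DivisionRing D] [Algebra K D] (S : MN K F D)
    (E W : Type) [AddCommGroup E] [Module D E] [Module K E] [IsScalarTower K D E]
    [AddCommGroup W] [Module K W] (cf : F → E →ₗ[K] W), Cf S cf → ∀ V : Submodule D E,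
    Module.rank K (Ld S cf V) ≤ Module.rank D V ∧
      ∀ n : ℕ, (n : Cardinal) ≤ Module.rank D V → (n : Cardinal) ≤ Module.rank K (Ld S cf V)

/- Row Coef -/

/-- the coefficient of `u` -/
noncomputable def cf0 {K F D : Type} [Field K] [Group F] [DivisionRing D] [Algebra K D]
    (S : MN K F D) (A : Type) [AddCommGroup A] [Module K A] (u : F) : D ⊗[K] A →ₗ[K] A :=
  (TensorProduct.lid K A).toLinearMap ∘ₗ (S.co u).rTensor A

@[simp] lemma cf0_tmul {K F D : Type} [Field K] [Group F] [DivisionRing D] [Algebra K D]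
    (S : MN K F D) {A : Type} [AddCommGroup A] [Module K A] (u : F) (δ : D) (a : A) :
    cf0 S A u (δ ⊗ₜ a) = S.co u δ • a := by
  simp [cf0]

def Coef : Prop :=
  ∀ (K F D : Type) [Field K] [Group F] [DivisionRing D] [Algebra K D] (S : MN K F D)
    (X A : Type) [AddCommGroup A] [Module K A], Cf S (cf0 S A) ∧
    Cf S (E := X →₀ D ⊗[K] A) (W := X →₀ A) fun u => Finsupp.mapRange.linearMap (cf0 S A u)

/- Row LA -/

/-- contraction with a functional on the second factor -/
noncomputable def cR {K A B : Type} [Field K] [AddCommGroup A] [Module K A] [AddCommGroup B]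
    [Module K B] (φ : B →ₗ[K] K) : A ⊗[K] B →ₗ[K] A :=
  (TensorProduct.rid K A).toLinearMap ∘ₗ φ.lTensor A

/-- contraction with a functional on the first factor -/
noncomputable def cL {K A B : Type} [Field K] [AddCommGroup A] [Module K A] [AddCommGroup B]
    [Module K B] (ψ : A →ₗ[K] K) : A ⊗[K] B →ₗ[K] B :=
  (TensorProduct.lid K B).toLinearMap ∘ₗ ψ.rTensor B

def LA : Prop :=
  ∀ (K X A B : Type) [Field K] [AddCommGroup A] [Module K A] [AddCommGroup B] [Module K B]
    (LA : Submodule K (X →₀ A)) (LB : Submodule K (X →₀ B)) (W : Submodule K (X →₀ A ⊗[K] B))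
    (a b : ℕ), Module.rank K LA ≤ a → Module.rank K LB ≤ b →
    (∀ l ∈ W, ∀ φ : B →ₗ[K] K, Finsupp.mapRange.linearMap (cR φ) l ∈ LA) →
    (∀ l ∈ W, ∀ ψ : A →ₗ[K] K, Finsupp.mapRange.linearMap (cL ψ) l ∈ LB) →
    Module.rank K W ≤ (a * b : ℕ)

/- Row Sub -/

def Sub : Prop :=
  ∀ (K X D : Type) [Field K] [DivisionRing D] [Algebra K D] (S : MN K (FreeGroup X) D)
    (A B : Type) [AddCommGroup A] [Module K A] [AddCommGroup B] [Module K B]
    (ρA : Representation K (FreeGroup X) A) (ρB : Representation K (FreeGroup X) B) (a b : ℕ),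
    Module.rank D (Z S.io ρA) ≤ a → Module.rank D (Z S.io ρB) ≤ b →
    Module.rank D (Z S.io (ρA.tprod ρB)) ≤ (a * b : ℕ)

/- Row Tree -/

def Tree : Prop :=
  ∀ (K X D : Type) [Field K] [DivisionRing D] [Algebra K D] (S : MN K (FreeGroup X) D),
    Acyc K S.io ∧ ∀ I : Type, Z S.io (tr K (FreeGroup X) I) = ⊥

/- Row Low -/

def Low : Prop :=
  ∀ (K X D : Type) [Field K] [DivisionRing D] [Algebra K D] (io : FreeGroup X →* D) (I J : Type)
    (w : J → Fr K (FreeGroup X) I), Ind w →
    ∀ (N : Type) [AddCommGroup N] [Module K N] (ρ : Representation K (FreeGroup X) N)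
      (q : Fr K (FreeGroup X) I →ₗ[K] N), (∀ g v, q (tr K _ I g v) = ρ g (q v)) →
      LinearMap.ker q = gen w →
      Cardinal.mk J ≤ Module.rank D (sD io w) + Module.rank D (Z io ρ)

/- Row Upp -/

def Upp : Prop :=
  ∀ (K X D : Type) [Field K] [DivisionRing D] [Algebra K D] (io : FreeGroup X →* D) (I : Type),
    Z io (tr K (FreeGroup X) I) = ⊥ → ∀ (m : ℕ) (w : Fin m → Fr K (FreeGroup X) I)
      (N : Type) [AddCommGroup N] [Module K N] (ρ : Representation K (FreeGroup X) N)
      (q : Fr K (FreeGroup X) I →ₗ[K] N), (∀ g v, q (tr K _ I g v) = ρ g (q v)) →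
      Function.Surjective q → LinearMap.ker q = gen w →
      Module.rank D (Z io ρ) + Module.rank D (sD io w) ≤ m

/- Row Inner -/

def Inner : Prop :=
  ∀ (K X D : Type) [Field K] [DivisionRing D] [Algebra K D] (io : FreeGroup X →* D),
    Acyc K io → ∀ (d m : ℕ) (v : Fin m → Fr K (FreeGroup X) (Fin d)),
    ∃ (k : ℕ) (w : Fin k → Fr K (FreeGroup X) (Fin d)),
      (k : Cardinal) ≤ Module.rank D (sD io v) ∧ gen v ≤ gen w

/- Row Cos -/

/-- `b` is a basis over the group algebra of `H` of the vectors of `M` supported on `H` -/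
structure HB {K F I J : Type} [Field K] [Group F] (H : Subgroup F) (M : Submodule K (Fr K F I))
    (b : J → Fr K F I) : Prop where
  ind : LinearIndependent K fun p : J × H => tr K F I p.2 (b p.1)
  sp : ∀ v, v ∈ Submodule.span K (Set.range fun p : J × H => tr K F I p.2 (b p.1)) ↔
    v ∈ M ∧ ∀ i u, u ∉ H → v (i, u) = 0

def Cos1 : Prop :=
  ∀ (K F I J : Type) [Field K] [Group F] (H : Subgroup F) (N : Type) [AddCommGroup N] [Module K N]
    (ρ : Representation K F N) (q : Fr K F I →ₗ[K] N), (∀ g v, q (tr K F I g v) = ρ g (q v)) →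
    ∀ b : J → Fr K F I, HB H (LinearMap.ker q) b → Ind b ∧
      ∃ q' : Fr K F I →ₗ[K] N ⊗[K] MonoidAlgebra K (F ⧸ H),
        (∀ g v, q' (tr K F I g v) = ρ.tprod (Representation.ofMulAction K F (F ⧸ H)) g (q' v)) ∧
        LinearMap.ker q' = gen b

def Cos2 : Prop :=
  ∀ (K F : Type) [Field K] [Group F] (h : ℕ) (s : Fin h → F),
    ∃ q : Fr K F Unit →ₗ[K] MonoidAlgebra K (F ⧸ Subgroup.closure (Set.range s)),
      (∀ g v, q (tr K F Unit g v) = Representation.ofMulAction K F _ g (q v)) ∧
      Function.Surjective q ∧ LinearMap.ker q =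
        gen fun k => Finsupp.single ((), s k) (1 : K) - Finsupp.single ((), 1) 1

/- Row Main -/

def Main : Prop :=
  ∀ (K X : Type) [Field K] (d m h r r' : ℕ) (s : Fin h → FreeGroup X),
    Subgroup.closure (Set.range s) ≠ ⊥ → ∀ v : Fin m → Fr K (FreeGroup X) (Fin d),
    (∀ (k : ℕ) (w : Fin k → Fr K (FreeGroup X) (Fin d)), gen v ≤ gen w → r ≤ k) →
    ∀ (J : Type) (b : J → Fr K (FreeGroup X) (Fin d)),
    HB (Subgroup.closure (Set.range s)) (gen v) b →
    ∀ w' : Fin r' → Fr K (FreeGroup X) (Fin d), (∀ j, b j ∈ gen w') →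
    Cardinal.mk J ≤ (r' + (m - r) * (h - 1) : ℕ)

end Pool.Agent.MP_6883a6_al.H36
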