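import Pool.Agent.MP_6883a6_al.H36.Spec

/- Row Sub: the rank of the cycles is submultiplicative. -/

namespace Pool.Agent.MP_6883a6_al.H36

open TensorProduct

namespace SubA

variable {K X D : Type} [Field K] [DivisionRing D] [Algebra K D] (S : MN K (FreeGroup X) D)

theorem cf0_act {A : Type} [AddCommGroup A] [Module K A] (ρ : Representation K (FreeGroup X) A)
    (g u : FreeGroup X) (c : D ⊗[K] A) :
    cf0 S A u (act S.io ρ g c) = ρ g (cf0 S A (u * g) c) := by
  induction c using TensorProduct.induction_on with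
  | zero => simp
  | add c c' h h' => simp only [map_add, h, h']
  | tmul δ a =>
    have h := S.co_right g⁻¹ (u * g) δ
    rw [mul_inv_cancel_right] at h
    rw [act_tmul, cf0_tmul, cf0_tmul, h, map_smul]

theorem transfer (hC : Coef) {A C : Type} [AddCommGroup A] [Module K A] [AddCommGroup C]
    [Module K C] (ρA : Representation K (FreeGroup X) A) (ρC : Representation K (FreeGroup X) C)
    (f : FreeGroup X → C →ₗ[K] A) (hf : ∀ u g t, f u (ρC g t) = ρA g (f (u * g) t))
    (T : D ⊗[K] C →ₗ[K] D ⊗[K] A) (hT : ∀ u c, cf0 S A u (T c) = f u (cf0 S C u c))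
    (l : X →₀ C)
    (hl : l ∈ Ld S (E := X →₀ D ⊗[K] C) (W := X →₀ C)
      (fun u => Finsupp.mapRange.linearMap (cf0 S C u)) (Z S.io ρC)) :
    Finsupp.mapRange.linearMap (f 1) l ∈ Ld S (E := X →₀ D ⊗[K] A) (W := X →₀ A)
      (fun u => Finsupp.mapRange.linearMap (cf0 S A u)) (Z S.io ρA) := by
  have hact : ∀ g c, T (act S.io ρC g c) = act S.io ρA g (T c) := by
    intro g c
    rw [← sub_eq_zero]
    refine (hC K _ D S X A).1.ext0 _ fun u => ?_
    rw [map_sub, hT, cf0_act, cf0_act, hT, hf, sub_self]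
  have hbd : ∀ c : X →₀ D ⊗[K] C,
      bd S.io ρA (Finsupp.mapRange.linearMap T c) = T (bd S.io ρC c) := by
    intro c
    induction c using Finsupp.induction_linear with
    | zero => simp
    | add c c' h h' => simp only [map_add, h, h']
    | single x c =>
      rw [Finsupp.mapRange.linearMap_apply, Finsupp.mapRange_single, bd_single, bd_single,
        map_sub, hact]
  have hcf : ∀ (u : FreeGroup X) (c : X →₀ D ⊗[K] C),
      Finsupp.mapRange.linearMap (cf0 S A u) (Finsupp.mapRange.linearMap T c) =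
        Finsupp.mapRange.linearMap (f u) (Finsupp.mapRange.linearMap (cf0 S C u) c) := by
    intro u c
    ext x
    simp only [Finsupp.mapRange.linearMap_apply, Finsupp.mapRange_apply, hT]
  rw [mem_Ld] at hl ⊢
  obtain ⟨c, hc, h0, rfl⟩ := hl
  refine ⟨Finsupp.mapRange.linearMap T c, ?_, fun v hv => ?_, hcf 1 c⟩
  · have : bd S.io ρC c = 0 := hc
    change bd S.io ρA _ = 0
    rw [hbd, this, map_zero]
  · rw [hcf, h0 v hv, map_zero]

/-- the coefficientwise product with a family of functionals -/
noncomputable def hd {B : Type} [AddCommGroup B] [Module K B] (φ : FreeGroup X → B →ₗ[K] K) :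
    D ⊗[K] B →ₗ[K] D :=
  TensorProduct.lift (S.had ∘ₗ LinearMap.pi φ).flip

theorem co_hd {B : Type} [AddCommGroup B] [Module K B] (φ : FreeGroup X → B →ₗ[K] K)
    (u : FreeGroup X) (δ : D) (b : B) : S.co u (hd S φ (δ ⊗ₜ b)) = φ u b * S.co u δ := by
  simp [hd, S.co_had]

theorem exL {A B : Type} [AddCommGroup A] [Module K A] [AddCommGroup B] [Module K B]
    (ψ : FreeGroup X → A →ₗ[K] K) :
    ∃ T : D ⊗[K] (A ⊗[K] B) →ₗ[K] D ⊗[K] B,
      ∀ u c, cf0 S B u (T c) = cL (ψ u) (cf0 S (A ⊗[K] B) u c) := by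
  refine ⟨(hd S ψ).rTensor B ∘ₗ (TensorProduct.assoc K D A B).symm.toLinearMap, fun u c => ?_⟩
  induction c using TensorProduct.induction_on with
  | zero => simp
  | add c c' h h' => simp only [map_add, h, h']
  | tmul δ t =>
    induction t using TensorProduct.induction_on with
    | zero => simp
    | add t t' h h' => simp only [tmul_add, map_add, h, h']
    | tmul a b => simp [cL, co_hd, mul_smul, smul_comm (S.co u δ)]

theorem exR {A B : Type} [AddCommGroup A] [Module K A] [AddCommGroup B] [Module K B]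
    (φ : FreeGroup X → B →ₗ[K] K) :
    ∃ T : D ⊗[K] (A ⊗[K] B) →ₗ[K] D ⊗[K] A,
      ∀ u c, cf0 S A u (T c) = cR (φ u) (cf0 S (A ⊗[K] B) u c) := by
  obtain ⟨T, hT⟩ := exL S (A := B) (B := A) φ
  refine ⟨T ∘ₗ (TensorProduct.comm K A B).toLinearMap.lTensor D, fun u c => ?_⟩
  rw [LinearMap.comp_apply, hT]
  induction c using TensorProduct.induction_on with
  | zero => simp
  | add c c' h h' => simp only [map_add, h, h']
  | tmul δ t =>
    induction t using TensorProduct.induction_on with
    | zero => simp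
    | add t t' h h' => simp only [tmul_add, map_add, h, h']
    | tmul a b => simp [cL, cR]

end SubA

open SubA

theorem sub : Val → Coef → LA → Sub := by
  intro hV hC hL K X D _ _ _ S A B _ _ _ _ ρA ρB a b ha hb
  have hA := (hV K _ D S _ _ _ (hC K _ D S X A).2 (Z S.io ρA)).1.trans ha
  have hB := (hV K _ D S _ _ _ (hC K _ D S X B).2 (Z S.io ρB)).1.trans hb
  have hAB := (hV K _ D S _ _ _ (hC K _ D S X (A ⊗[K] B)).2 (Z S.io (ρA.tprod ρB))).2
  have key := hL K X A B _ _ (Ld S (E := X →₀ D ⊗[K] (A ⊗[K] B)) (W := X →₀ A ⊗[K] B)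
    (fun u => Finsupp.mapRange.linearMap (cf0 S (A ⊗[K] B) u)) (Z S.io (ρA.tprod ρB))) a b hA hB
    (fun l hl φ => by
      obtain ⟨T, hT⟩ := exR S (A := A) fun u => φ ∘ₗ ρB u
      have := transfer S hC ρA (ρA.tprod ρB) (fun u => cR (φ ∘ₗ ρB u)) (fun u g t => by
        induction t using TensorProduct.induction_on with
        | zero => simp
        | add t t' h h' => simp only [map_add, h, h']
        | tmul a b => simp [cR]) T hT l hl
      rwa [map_one, Module.End.one_eq_id, LinearMap.comp_id] at this)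
    (fun l hl ψ => by
      obtain ⟨T, hT⟩ := exL S (B := B) fun u => ψ ∘ₗ ρA u
      have := transfer S hC ρB (ρA.tprod ρB) (fun u => cL (ψ ∘ₗ ρA u)) (fun u g t => by
        induction t using TensorProduct.induction_on with
        | zero => simp
        | add t t' h h' => simp only [map_add, h, h']
        | tmul a b => simp [cL]) T hT l hl
      rwa [map_one, Module.End.one_eq_id, LinearMap.comp_id] at this)
  by_contra h
  have h1 : ((a * b + 1 : ℕ) : Cardinal) ≤ Module.rank D (Z S.io (ρA.tprod ρB)) := by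
    rw [Nat.cast_succ]
    exact Cardinal.natCast_add_one_le_iff.2 (not_le.1 h)
  have h2 := (hAB _ h1).trans key
  have h3 : a * b + 1 ≤ a * b := by exact_mod_cast h2
  omega

end Pool.Agent.MP_6883a6_al.H36
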