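import Pool.Agent.MP_6883a6_al.H36.Spec

/-
Translation between right modules over the group algebra and the free representation.
-/

namespace Pool.Agent.MP_6883a6_al.H36.TrA

open MulOpposite MonoidAlgebra

variable {K G : Type} [Field K] [Group G] {d : ℕ}

/-- coordinates -/
noncomputable def Φ (K G : Type) [Field K] [Group G] (d : ℕ) :
    (Fin d → MonoidAlgebra K G) ≃ₗ[K] Fr K G (Fin d) :=
  (LinearEquiv.piCongrRight fun _ =>
    (coeffLinearEquiv K).trans (Finsupp.domLCongr (Equiv.inv G))) ≪≫ₗ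
    (Finsupp.linearEquivFunOnFinite K (G →₀ K) (Fin d)).symm ≪≫ₗ
    (Finsupp.curryLinearEquiv K).symm

lemma Φ_apply (v : Fin d → MonoidAlgebra K G) (i : Fin d) (u : G) :
    Φ K G d v (i, u) = (v i).coeff u⁻¹ := by
  simp [Φ]

lemma Φ_smul (v : Fin d → MonoidAlgebra K G) (g : G) :
    Φ K G d (op (single g⁻¹ (1 : K)) • v) = tr K G (Fin d) g (Φ K G d v) := by
  ext ⟨i, u⟩
  obtain ⟨u, rfl⟩ : ∃ u', u = g * u' := ⟨g⁻¹ * u, by simp⟩
  rw [tr_apply, Φ_apply, Φ_apply]
  simp

lemma mem_span_iff {J : Type} (w : J → Fin d → MonoidAlgebra K G)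
    (v : Fin d → MonoidAlgebra K G) :
    v ∈ Submodule.span (MonoidAlgebra K G)ᵐᵒᵖ (Set.range w) ↔
      Φ K G d v ∈ gen fun j => Φ K G d (w j) := by
  constructor
  · intro hv
    induction hv using Submodule.span_induction with
    | mem x hx =>
      obtain ⟨j, rfl⟩ := hx
      exact mem_gen (fun j => Φ K G d (w j)) j
    | zero => rw [map_zero]; exact zero_mem _
    | add x y _ _ hx hy => rw [map_add]; exact add_mem hx hy
    | smul r x _ hx =>
      obtain ⟨r, rfl⟩ := op_surjective r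
      induction r using MonoidAlgebra.induction_linear with
      | zero => rw [op_zero, zero_smul, map_zero]; exact zero_mem _
      | add a b ha hb => rw [op_add, add_smul, map_add]; exact add_mem ha hb
      | single g c =>
        have : (single g c : MonoidAlgebra K G) = c • single g⁻¹⁻¹ 1 := by simp
        rw [this, op_smul, smul_assoc, map_smul, Φ_smul]
        exact Submodule.smul_mem _ _ (tr_mem_gen _ _ hx)
  · intro hv
    have : (gen fun j => Φ K G d (w j)) ≤
        ((Submodule.span (MonoidAlgebra K G)ᵐᵒᵖ (Set.range w)).restrictScalars K).map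
          (Φ K G d).toLinearMap := by
      rw [gen, Submodule.span_le]
      rintro _ ⟨p, rfl⟩
      have h1 : w p.1 ∈ Submodule.span (MonoidAlgebra K G)ᵐᵒᵖ (Set.range w) :=
        Submodule.subset_span ⟨p.1, rfl⟩
      exact ⟨op (single p.2⁻¹ (1 : K)) • w p.1, Submodule.smul_mem _ _ h1, Φ_smul _ _⟩
    obtain ⟨x, hx, hxv⟩ := this hv
    rwa [← (Φ K G d).injective hxv]

lemma ind_of {J : Type} {w : J → Fin d → MonoidAlgebra K G}
    (hw : LinearIndependent (MonoidAlgebra K G)ᵐᵒᵖ w) : Ind fun j => Φ K G d (w j) := by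
  have h0 : LinearIndependent K fun g : G => op (single g⁻¹ (1 : K)) :=
    (((MonoidAlgebra.basis G K).linearIndependent.comp _ inv_injective).map'
      (opLinearEquiv K).toLinearMap (LinearEquiv.ker _))
  have h1 := ((linearIndependent_smul h0 hw).comp _ (Equiv.prodComm J G).injective).map'
    (Φ K G d).toLinearMap (LinearEquiv.ker _)
  have h2 : (fun p : J × G => tr K G (Fin d) p.2 (Φ K G d (w p.1))) =
      fun p : J × G => Φ K G d (op (single p.2⁻¹ (1 : K)) • w p.1) :=
    funext fun p => (Φ_smul _ _).symm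
  rw [Ind, h2]
  exact h1

/-- extension by zero -/
noncomputable def ex (H : Subgroup G) (I : Type) : Fr K H I →ₗ[K] Fr K G I :=
  Finsupp.lmapDomain K K fun p => (p.1, (p.2 : G))

lemma ex_inj (H : Subgroup G) (I : Type) :
    Function.Injective fun p : I × H => (p.1, (p.2 : G)) :=
  fun _ _ h => Prod.ext (Prod.ext_iff.1 h).1 (Subtype.ext (Prod.ext_iff.1 h).2)

lemma ex_injective (H : Subgroup G) (I : Type) : Function.Injective (ex (K := K) H I) :=
  Finsupp.mapDomain_injective (ex_inj H I)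

lemma ex_apply (H : Subgroup G) {I : Type} (v : Fr K H I) (i : I) (u : H) :
    ex H I v (i, (u : G)) = v (i, u) :=
  Finsupp.mapDomain_apply (ex_inj H I) v (i, u)

lemma ex_apply_not (H : Subgroup G) {I : Type} (v : Fr K H I) (i : I) {u : G} (hu : u ∉ H) :
    ex H I v (i, u) = 0 := by
  refine Finsupp.mapDomain_of_notMem_range _ _ ?_
  rintro ⟨p, hp⟩
  have h1 : (p.2 : G) = u := (Prod.ext_iff.1 hp).2
  exact hu (h1 ▸ p.2.2)

lemma ex_tr (H : Subgroup G) {I : Type} (g : H) (v : Fr K H I) :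
    ex H I (tr K H I g v) = tr K G I g (ex H I v) := by
  induction v using Finsupp.induction_linear with
  | zero => simp
  | add v w hv hw => simp only [map_add, hv, hw]
  | single p c =>
    obtain ⟨i, u⟩ := p
    rw [tr_single]
    simp [ex]

lemma ex_Φ (H : Subgroup G) (v : Fin d → MonoidAlgebra K H) :
    ex H (Fin d) (Φ K H d v) = Φ K G d fun i => mapDomain H.subtype (v i) := by
  ext ⟨i, u⟩
  rw [Φ_apply]
  by_cases hu : u ∈ H
  · rw [ex_apply H _ i ⟨u, hu⟩, Φ_apply]
    exact (Finsupp.mapDomain_apply H.subtype_injective (v i).coeff (⟨u, hu⟩ : H)⁻¹).symm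
  · rw [ex_apply_not H _ i hu]
    refine (Finsupp.mapDomain_of_notMem_range _ _ ?_).symm
    rintro ⟨p, hp⟩
    exact hu (inv_mem_iff.1 (hp ▸ p.2))

lemma exists_ex (H : Subgroup G) {I : Type} (v : Fr K G I) (hv : ∀ i u, u ∉ H → v (i, u) = 0) :
    ∃ x, ex H I x = v := by
  refine ⟨Finsupp.comapDomain _ v (ex_inj H I).injOn,
    Finsupp.mapDomain_comapDomain _ (ex_inj H I) v ?_⟩
  rintro ⟨i, u⟩ hp
  by_contra hc
  exact Finsupp.mem_support_iff.1 hp (hv i u fun hu => hc ⟨(i, ⟨u, hu⟩), rfl⟩)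

lemma hb_of (H : Subgroup G) (M : Submodule K (Fr K G (Fin d))) {J : Type}
    (w : J → Fin d → MonoidAlgebra K H) (hw : Ind fun j => Φ K H d (w j))
    (hM : ∀ v, Φ K H d v ∈ (gen fun j => Φ K H d (w j)) ↔
      Φ K G d (fun i => mapDomain H.subtype (v i)) ∈ M) :
    HB H M fun j => Φ K G d fun i => mapDomain H.subtype (w j i) := by
  have e : (fun p : J × H => tr K G (Fin d) p.2
      (Φ K G d fun i => mapDomain H.subtype (w p.1 i))) =
      ex H (Fin d) ∘ fun p : J × H => tr K H (Fin d) p.2 (Φ K H d (w p.1)) :=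
    funext fun p => by rw [Function.comp_apply, ex_tr, ex_Φ]
  constructor
  · rw [e]
    exact LinearIndependent.map' hw _ (LinearMap.ker_eq_bot.2 (ex_injective H _))
  · intro v
    rw [e, Set.range_comp, ← Submodule.map_span]
    constructor
    · rintro ⟨x, hx, rfl⟩
      refine ⟨?_, fun i u hu => ex_apply_not H x i hu⟩
      obtain ⟨x, rfl⟩ := (Φ K H d).surjective x
      rw [ex_Φ, ← hM]
      exact hx
    · rintro ⟨h1, h2⟩
      obtain ⟨x, rfl⟩ := exists_ex H v h2
      obtain ⟨x, rfl⟩ := (Φ K H d).surjective x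
      rw [ex_Φ, ← hM] at h1
      exact ⟨_, h1, rfl⟩

lemma basis_data {J : Type} (M : Submodule (MonoidAlgebra K G)ᵐᵒᵖ (Fin d → MonoidAlgebra K G))
    (b : Module.Basis J (MonoidAlgebra K G)ᵐᵒᵖ M) :
    ∃ w : J → Fin d → MonoidAlgebra K G, (Ind fun j => Φ K G d (w j)) ∧
      Submodule.span (MonoidAlgebra K G)ᵐᵒᵖ (Set.range w) = M ∧
      ∀ v, v ∈ M ↔ Φ K G d v ∈ gen fun j => Φ K G d (w j) := by
  have hsp : Submodule.span (MonoidAlgebra K G)ᵐᵒᵖ (Set.range (M.subtype ∘ b)) = M := by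
    have := congrArg (Submodule.map M.subtype) b.span_eq
    rwa [Submodule.map_span, Submodule.map_subtype_top, ← Set.range_comp] at this
  refine ⟨M.subtype ∘ b, ind_of (b.linearIndependent.map' M.subtype M.ker_subtype), hsp,
    fun v => ?_⟩
  rw [← mem_span_iff, hsp]

end Pool.Agent.MP_6883a6_al.H36.TrA
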