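import Pool.Agent.MP_6883a6_al.H36.Spec
import Pool.Agent.MP_6883a6_al.H25.Fox

/-
Row Tree: vector spaces over the division ring and free modules have no cycles.
-/

namespace Pool.Agent.MP_6883a6_al.H36

open TensorProduct

namespace TreeA

open MonoidAlgebra H25 in
theorem left_indep {K G ι : Type} [Field K] [Group G] (b : FreeGroupBasis ι G) (s : Finset ι)
    (p : ι → MonoidAlgebra K G) (h : ∑ j ∈ s, p j * gm K (b j) = 0) {i : ι} (hi : i ∈ s) :
    p i = 0 := by
  classical
  let φ : G →* (Matrix (Fin 2) (Fin 2) (MonoidAlgebra K G))ˣ :=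
    b.lift fun j => uL (b j) (if j = i then 1 else 0)
  let Φ : MonoidAlgebra K G →ₐ[K] Matrix (Fin 2) (Fin 2) (MonoidAlgebra K G) :=
    MonoidAlgebra.lift K _ G ((Units.coeHom _).comp φ)
  have hφ : ∀ g, (φ g).val 1 0 = 0 ∧ (φ g).val 0 0 = of K G g := by
    intro g
    induction g using basis_induction b with
    | h1 => simp [one_def]
    | hb j => simp only [φ, lift_basis]; simp [uL]
    | hinv j => rw [map_inv]; simp only [φ, lift_basis]; simp [uL]
    | hmul x y hx hy =>
      rw [map_mul, Units.val_mul, map_mul]
      simp only [Matrix.mul_apply, Fin.sum_univ_two, hx.1, hx.2, hy.1, hy.2]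
      simp
  have hΦ : ∀ u, Φ u 0 0 = u := by
    intro u
    induction u using MonoidAlgebra.induction_on with
    | of g => simpa [Φ] using (hφ g).2
    | add x y hx hy => rw [map_add, Matrix.add_apply, hx, hy]
    | smul r x hx => rw [map_smul, Matrix.smul_apply, hx]
  have hg : ∀ j, Φ (gm K (b j)) 1 1 = 0 ∧ Φ (gm K (b j)) 0 1 = if j = i then 1 else 0 := by
    intro j
    have : Φ (of K G (b j)) = (uL (b j) (if j = i then 1 else 0)).val := by
      simp only [Φ, lift_of, MonoidHom.comp_apply, φ, lift_basis]; rfl
    rw [gm, map_sub, this, map_one]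
    simp [uL]
  have := congrArg (fun u => Φ u 0 1) h
  simp only [map_sum, map_mul, Matrix.sum_apply, Matrix.mul_apply, Fin.sum_univ_two, (hg _).1,
    (hg _).2, hΦ, map_zero, Matrix.zero_apply] at this
  simpa [hi] using this

/-- the Cayley graph of a free group has no finite cycles -/
theorem cayley {K X : Type} [Field K] (s : Finset X) (a : X → FreeGroup X → K)
    (ha : ∀ x, (Function.support (a x)).Finite)
    (h : ∀ u, ∑ x ∈ s, (a x (u * FreeGroup.of x) - a x u) = 0) {x : X} (hx : x ∈ s) (u : FreeGroup X) :
    a x u = 0 := by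
  let p : X → MonoidAlgebra K (FreeGroup X) := fun y =>
    .ofCoeff (Finsupp.ofSupportFinite (a y) (ha y)) * .single (FreeGroup.of y)⁻¹ 1
  have hp : ∀ y v, (p y).coeff v = a y (v * FreeGroup.of y) := fun y v => by
    simp [p, Finsupp.ofSupportFinite_coe]
  have h0 : ∑ y ∈ s, p y * H25.gm K (FreeGroupBasis.ofFreeGroup X y) = 0 := by
    apply MonoidAlgebra.coeff_injective
    ext v
    have := h v
    rw [← neg_eq_zero, ← Finset.sum_neg_distrib] at this
    rw [MonoidAlgebra.coeff_sum, Finsupp.finsetSum_apply, MonoidAlgebra.coeff_zero,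
      Finsupp.zero_apply, ← this]
    refine Finset.sum_congr rfl fun y _ => ?_
    simp [H25.gm, mul_sub, hp]
  have h1 := hp x (u * (FreeGroup.of x)⁻¹)
  rw [left_indep _ s p h0 hx, inv_mul_cancel_right] at h1
  exact h1.symm

variable {K F D : Type} [Field K] [Group F] [DivisionRing D] [Algebra K D]

theorem cf0_act (S : MN K F D) {A : Type} [AddCommGroup A] [Module K A]
    (ρ : Representation K F A) (g u : F) (c : D ⊗[K] A) :
    cf0 S A u (act S.io ρ g c) = ρ g (cf0 S A (u * g) c) := by
  induction c using TensorProduct.induction_on with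
  | zero => simp
  | tmul δ a =>
    have := S.co_right g⁻¹ (u * g) δ
    rw [mul_inv_cancel_right] at this
    rw [act_tmul, cf0_tmul, cf0_tmul, this, map_smul]
  | add x y hx hy => simp only [map_add, hx, hy]

theorem fin_supp (S : MN K F D) {W : Type} [AddCommGroup W] [Module D W] [Module K W]
    [IsScalarTower K D W] (l : W →ₗ[D] D) (p : F) (c : D ⊗[K] W) :
    (Function.support fun u => S.co (u⁻¹ * p) (l (cf0 S W u c))).Finite := by
  induction c using TensorProduct.induction_on with
  | zero => simp
  | tmul δ w =>
    refine (S.fin δ (l w) p).subset fun u hu => ?_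
    rw [Function.mem_support, cf0_tmul, LinearMap.map_smul_of_tower, map_smul, smul_eq_mul] at hu
    exact mul_ne_zero_iff.1 hu
  | add x y hx hy =>
    refine (hx.union hy).subset fun u hu => ?_
    by_contra hn
    simp only [Set.mem_union, Function.mem_support, not_or, not_not] at hn
    simp only [Function.mem_support, map_add, hn.1, hn.2, add_zero] at hu
    exact hu rfl

theorem co_io (S : MN K F D) (u v : F) [Decidable (v = u)] :
    S.co u (S.io v) = if v = u then 1 else 0 := by
  have := S.co_left v (v⁻¹ * u) 1
  rw [mul_inv_cancel_left, mul_one] at this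
  rw [this]
  split_ifs with h
  · rw [h, inv_mul_cancel, S.co_one]
  · exact S.co_one_ne _ fun e => h (inv_mul_eq_one.1 e)

theorem th_inj (S : MN K F D) (I : Type) : Function.Injective (th K S.io I) := by
  classical
  have key : ∀ (v : Fr K F I) (i : I) (u : F), S.co u (th K S.io I v i) = v (i, u) := by
    intro v i u
    induction v using Finsupp.induction_linear with
    | zero => simp
    | add v w hv hw => simp only [map_add, Finsupp.add_apply, hv, hw]
    | single p c =>
      obtain ⟨j, t⟩ := p
      rw [th_single, Finsupp.smul_apply, map_smul, Finsupp.single_apply, Finsupp.single_apply]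
      by_cases h : j = i
      · simp [h, co_io]
      · simp [h]
  rw [injective_iff_map_eq_zero]
  intro v hv
  ext ⟨i, u⟩
  rw [← key, hv]
  simp

theorem bd_eq {X : Type} (io : FreeGroup X →* D) {A : Type} [AddCommGroup A] [Module K A]
    (ρ : Representation K (FreeGroup X) A) (c : X →₀ D ⊗[K] A) :
    bd io ρ c = ∑ x ∈ c.support, (act io ρ (FreeGroup.of x) (c x) - c x) := by
  simp [bd, Finsupp.sum]

/-- the representation on `D ^ I` -/
noncomputable def rD (K : Type) [Field K] [Algebra K D] (io : F →* D) (I : Type) :
    Representation K F (I →₀ D) where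
  toFun g := { toFun := fun w => io g • w
               map_add' := smul_add _
               map_smul' := fun c w => smul_comm _ c w }
  map_one' := LinearMap.ext fun w => by simp
  map_mul' g h := LinearMap.ext fun w => by simp [mul_smul]

end TreeA

open TreeA in
theorem tree : Coef → Tree := by
  intro hC K X D _ _ _ S
  have acyc : Acyc K S.io := by
    intro W _ _ _ _ ρ hρ
    rw [eq_bot_iff]
    intro c hc
    have h0 : bd S.io ρ c = 0 := hc
    rw [bd_eq] at h0
    rw [Submodule.mem_bot]
    ext x
    by_contra hx
    refine hx ((hC K _ D S X W).1.ext0 _ fun u => ?_)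
    refine (Module.Free.chooseBasis D W).forall_coord_eq_zero_iff.1 fun i => ?_
    refine S.ext0 _ fun p => ?_
    have := cayley c.support
      (fun y v => S.co (v⁻¹ * (u * p)) ((Module.Free.chooseBasis D W).coord i (cf0 S W v (c y))))
      (fun y => fin_supp S _ _ _) (fun v => ?_) (Finsupp.mem_support_iff.2 hx) u
    · rwa [inv_mul_cancel_left] at this
    · have h1 := congrArg (fun t => S.co (v⁻¹ * (u * p))
        ((Module.Free.chooseBasis D W).coord i (cf0 S W v t))) h0
      simp only [map_sum, map_sub, map_zero, cf0_act, hρ, map_smul, smul_eq_mul] at h1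
      rw [← h1]
      refine Finset.sum_congr rfl fun y _ => ?_
      rw [← S.co_left (FreeGroup.of y) ((v * FreeGroup.of y)⁻¹ * (u * p)), mul_inv_rev, mul_assoc,
        mul_inv_cancel_left]
  refine ⟨acyc, fun I => ?_⟩
  have hZ := acyc (I →₀ D) (rD K S.io I) fun _ _ => rfl
  have inj : Function.Injective ((th K S.io I).lTensor D) :=
    Module.Flat.lTensor_preserves_injective_linearMap _ (th_inj S I)
  have eqv : ∀ g (t : D ⊗[K] Fr K (FreeGroup X) I), (th K S.io I).lTensor D (act S.io (tr K _ I) g t) =
      act S.io (rD K S.io I) g ((th K S.io I).lTensor D t) := by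
    intro g t
    induction t using TensorProduct.induction_on with
    | zero => simp
    | tmul δ a => rw [act_tmul, LinearMap.lTensor_tmul, LinearMap.lTensor_tmul, act_tmul, th_tr]; rfl
    | add x y hx hy => simp only [map_add, hx, hy]
  have cmp : ∀ c : X →₀ D ⊗[K] Fr K (FreeGroup X) I,
      bd S.io (rD K S.io I) (Finsupp.mapRange.linearMap ((th K S.io I).lTensor D) c) =
        (th K S.io I).lTensor D (bd S.io (tr K _ I) c) := by
    intro c
    induction c using Finsupp.induction_linear with
    | zero => simp
    | add v w hv hw => simp only [map_add, hv, hw]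
    | single x t =>
      rw [Finsupp.mapRange.linearMap_apply, Finsupp.mapRange_single, bd_single, bd_single, map_sub,
        eqv]
  rw [eq_bot_iff]
  intro c hc
  have h0 : bd S.io (tr K _ I) c = 0 := hc
  have h1 : Finsupp.mapRange.linearMap ((th K S.io I).lTensor D) c ∈ Z S.io (rD K S.io I) := by
    change bd _ _ _ = 0
    rw [cmp, h0, map_zero]
  rw [hZ, Submodule.mem_bot] at h1
  rw [Submodule.mem_bot]
  ext x
  apply inj
  have := congrArg (fun t => t x) h1
  simpa using this

end Pool.Agent.MP_6883a6_al.H36
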