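import Pool.Agent.MP_6883a6_al.H36.Spec

/-
Row Upp: the snake lemma bound for the cycles of a finitely presented representation.
-/

namespace Pool.Agent.MP_6883a6_al.H36

open TensorProduct

namespace UppA

theorem rk {D Y Q W : Type} [DivisionRing D] [AddCommMonoid Y] [Module D Y] [AddCommGroup Q]
    [Module D Q] [AddCommGroup W] [Module D W] (T : Submodule D Q) (e : Q →ₗ[D] W)
    (f : Y →ₗ[D] Q) (hf : Function.Injective f) (h1 : ∀ y, f y ∈ T) (h2 : ∀ y, e (f y) = 0)
    (S : Submodule D W) (hS : S ≤ T.map e) :
    Module.rank D Y + Module.rank D S ≤ Module.rank D T := by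
  rw [← LinearMap.rank_range_add_rank_ker (e.domRestrict T), add_comm]
  refine add_le_add (Submodule.rank_mono ?_) ?_
  · rw [LinearMap.range_domRestrict]; exact hS
  · refine LinearMap.rank_le_of_injective
      ((f.codRestrict T h1).codRestrict (LinearMap.ker (e.domRestrict T)) fun y => h2 y) ?_
    intro a b hab
    exact hf (congrArg (fun t => (t.1.1 : Q)) hab)

theorem inj {D C C' : Type} [DivisionRing D] [AddCommMonoid C] [Module D C] [AddCommMonoid C']
    [Module D C'] (f : C →ₗ[D] C') (h : LinearMap.ker f = ⊥) : Function.Injective f := by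
  letI := Module.addCommMonoidToAddCommGroup D (M := C)
  letI := Module.addCommMonoidToAddCommGroup D (M := C')
  exact LinearMap.ker_eq_bot.1 h

section
variable {K F D : Type} [Field K] [Group F] [DivisionRing D] [Algebra K D] (io : F →* D)
  {A B : Type} [AddCommGroup A] [Module K A] [AddCommGroup B] [Module K B]

theorem act_mul (ρ : Representation K F A) (g h : F) (c : D ⊗[K] A) :
    act io ρ (g * h) c = act io ρ g (act io ρ h c) := by
  induction c using TensorProduct.induction_on with
  | zero => simp
  | add a b ha hb => simp only [map_add, ha, hb]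
  | tmul δ a => simp [mul_assoc]

theorem act_one (ρ : Representation K F A) (c : D ⊗[K] A) : act io ρ 1 c = c := by
  induction c using TensorProduct.induction_on with
  | zero => simp
  | add a b ha hb => simp only [map_add, ha, hb]
  | tmul δ a => simp

theorem act_q (σ : Representation K F A) (ρ : Representation K F B) (q : A →ₗ[K] B)
    (hq : ∀ g v, q (σ g v) = ρ g (q v)) (g : F) (c : D ⊗[K] A) :
    q.baseChange D (act io σ g c) = act io ρ g (q.baseChange D c) := by
  induction c using TensorProduct.induction_on with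
  | zero => simp
  | add a b ha hb => simp only [map_add, ha, hb]
  | tmul δ a => simp [hq]

/-- the augmentation -/
noncomputable def ep (K : Type) [Field K] [Algebra K D] (io : F →* D) (I : Type) :
    D ⊗[K] Fr K F I →ₗ[D] (I →₀ D) :=
  AlgebraTensorModule.lift (LinearMap.toSpanSingleton D (Fr K F I →ₗ[K] (I →₀ D)) (th K io I))

theorem ep_tmul {I : Type} (δ : D) (v : Fr K F I) : ep K io I (δ ⊗ₜ v) = δ • th K io I v := by
  simp [ep]

theorem ep_act {I : Type} (g : F) (c : D ⊗[K] Fr K F I) :
    ep K io I (act io (tr K F I) g c) = ep K io I c := by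
  induction c using TensorProduct.induction_on with
  | zero => simp
  | add a b ha hb => simp only [map_add, ha, hb]
  | tmul δ a =>
    rw [act_tmul, ep_tmul, ep_tmul, th_tr, smul_smul, mul_assoc, ← map_mul, inv_mul_cancel,
      map_one, mul_one]

end

section
variable {K X D : Type} [Field K] [DivisionRing D] [Algebra K D] (io : FreeGroup X →* D)
  {A B : Type} [AddCommGroup A] [Module K A] [AddCommGroup B] [Module K B]

theorem ep_bd {I : Type} (z : X →₀ D ⊗[K] Fr K (FreeGroup X) I) :
    ep K io I (bd io (tr K _ I) z) = 0 := by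
  induction z using Finsupp.induction_linear with
  | zero => simp
  | add a b ha hb => simp only [map_add, ha, hb, add_zero]
  | single x c => rw [bd_single, map_sub, ep_act, sub_self]

theorem bd_q (σ : Representation K (FreeGroup X) A) (ρ : Representation K (FreeGroup X) B)
    (q : A →ₗ[K] B) (hq : ∀ g v, q (σ g v) = ρ g (q v)) (z : X →₀ D ⊗[K] A) :
    q.baseChange D (bd io σ z) = bd io ρ (Finsupp.mapRange.linearMap (q.baseChange D) z) := by
  induction z using Finsupp.induction_linear with
  | zero => simp
  | add a b ha hb => simp only [map_add, ha, hb]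
  | single x c =>
    rw [bd_single, map_sub, act_q io σ ρ q hq, Finsupp.mapRange.linearMap_apply,
      Finsupp.mapRange_single, bd_single]

theorem sub_mem (σ : Representation K (FreeGroup X) A) (ρ : Representation K (FreeGroup X) B)
    (q : A →ₗ[K] B) (hq : ∀ g v, q (σ g v) = ρ g (q v)) (g : FreeGroup X) :
    ∀ c : D ⊗[K] A, q.baseChange D c = 0 → act io σ g c - c ∈
      (LinearMap.ker (Finsupp.mapRange.linearMap (α := X) (q.baseChange D))).map (bd io σ) := by
  have hst : ∀ g (c : D ⊗[K] A), q.baseChange D c = 0 → q.baseChange D (act io σ g c) = 0 :=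
    fun g c hc => by rw [act_q io σ ρ q hq, hc, map_zero]
  induction g using FreeGroup.induction_on with
  | C1 => intro c _; rw [act_one, sub_self]; exact Submodule.zero_mem _
  | of x =>
    intro c hc
    refine ⟨Finsupp.single x c, ?_, bd_single io σ x c⟩
    change Finsupp.mapRange.linearMap (q.baseChange D) (Finsupp.single x c) = 0
    rw [Finsupp.mapRange.linearMap_apply, Finsupp.mapRange_single, hc, Finsupp.single_zero]
  | inv_of x h =>
    intro c hc
    have h1 := Submodule.neg_mem _ (h _ (hst (FreeGroup.of x)⁻¹ c hc))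
    rwa [← act_mul, mul_inv_cancel, act_one, neg_sub] at h1
  | mul g h hg hh =>
    intro c hc
    have h1 := Submodule.add_mem _ (hg _ (hst h c hc)) (hh c hc)
    rwa [← act_mul, sub_add_sub_cancel] at h1

end

end UppA

open UppA in
theorem upp : Upp := by
  intro K X D _ _ _ io I hZ m w N _ _ ρ q hq hs hk
  have hinj : Function.Injective (bd io (tr K (FreeGroup X) I)) := inj _ hZ
  have hs1 : Function.Surjective (q.baseChange D) := by
    rw [LinearMap.baseChange_eq_ltensor]; exact LinearMap.lTensor_surjective D hs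
  obtain ⟨s, hsec⟩ := LinearMap.exists_rightInverse_of_surjective
    (Finsupp.mapRange.linearMap (α := X) (q.baseChange D))
    (LinearMap.range_eq_top.2 (Finsupp.mapRange_surjective _ (map_zero _) hs1))
  have hsec' : ∀ z, Finsupp.mapRange.linearMap (α := X) (q.baseChange D) (s z) = z := fun z =>
    LinearMap.congr_fun hsec z
  set Bd := (LinearMap.ker (Finsupp.mapRange.linearMap (α := X) (q.baseChange D))).map
    (bd io (tr K (FreeGroup X) I)) with hBd
  have hBe : Bd ≤ LinearMap.ker (ep K io I) := by
    rintro _ ⟨z, -, rfl⟩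
    exact ep_bd io z
  set T : Submodule D ((D ⊗[K] Fr K (FreeGroup X) I) ⧸ Bd) :=
    Submodule.span D (Set.range fun j => Bd.mkQ (1 ⊗ₜ w j)) with hT
  have hw : ∀ j, q (w j) = 0 := fun j => by
    rw [← LinearMap.mem_ker, hk]; exact mem_gen w j
  have h0 : ∀ v ∈ gen w, ∀ δ : D, Bd.mkQ (δ ⊗ₜ v) ∈ T := by
    intro v hv
    induction hv using Submodule.span_induction with
    | mem x hx =>
      obtain ⟨p, rfl⟩ := hx
      intro δ
      have h1 := sub_mem io (tr K _ I) ρ q hq p.2 ((δ * io p.2) ⊗ₜ w p.1)
        (by rw [LinearMap.baseChange_tmul, hw, tmul_zero])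
      rw [act_tmul, mul_assoc, ← map_mul, mul_inv_cancel, map_one, mul_one,
        ← Submodule.Quotient.eq] at h1
      rw [Submodule.mkQ_apply, h1, ← Submodule.mkQ_apply, ← mul_one (δ * io p.2), ← smul_eq_mul,
        ← smul_tmul', map_smul]
      exact Submodule.smul_mem _ _ (Submodule.subset_span ⟨p.1, rfl⟩)
    | zero => intro δ; rw [tmul_zero, map_zero]; exact Submodule.zero_mem _
    | add x y _ _ hx hy => intro δ; rw [tmul_add, map_add]; exact Submodule.add_mem _ (hx δ) (hy δ)
    | smul a x _ hx => intro δ; rw [← smul_tmul]; exact hx _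
  have h1 : ∀ c, q.baseChange D c = 0 → Bd.mkQ c ∈ T := by
    intro c hc
    rw [LinearMap.baseChange_eq_ltensor] at hc
    obtain ⟨c', rfl⟩ := (lTensor_exact (M := LinearMap.ker q) D
      (LinearMap.exact_subtype_ker_map q) hs c).1 hc
    clear hc
    induction c' using TensorProduct.induction_on with
    | zero => rw [map_zero, map_zero]; exact Submodule.zero_mem _
    | add a b ha hb => rw [map_add, map_add]; exact Submodule.add_mem _ ha hb
    | tmul δ a => rw [LinearMap.lTensor_tmul]; exact h0 _ (hk ▸ a.2) δ
  refine (rk (Y := Z io ρ) T (Bd.liftQ _ hBe)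
    (Bd.mkQ ∘ₗ bd io (tr K (FreeGroup X) I) ∘ₗ s ∘ₗ (Z io ρ).subtype) ?_ (fun y => ?_)
    (fun y => ?_) _ ?_).trans ?_
  · refine inj _ (eq_bot_iff.2 fun y hy => ?_)
    obtain ⟨z, hz, hz'⟩ := (Submodule.Quotient.mk_eq_zero Bd).1 hy
    have h2 : z = s y := hinj hz'
    refine Subtype.ext ?_
    rw [← hsec' y, ← h2]
    exact hz
  · refine h1 _ ?_
    change q.baseChange D (bd io _ (s y)) = 0
    rw [bd_q io _ ρ q hq, hsec']
    exact y.2
  · exact ep_bd io (s y)
  · rw [sD, Submodule.span_le]
    rintro _ ⟨j, rfl⟩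
    refine ⟨_, Submodule.subset_span ⟨j, rfl⟩, ?_⟩
    change ep K io I (1 ⊗ₜ w j) = _
    rw [ep_tmul, one_smul]
  · refine (rank_span_le _).trans ?_
    simpa using Cardinal.mk_range_le (f := fun j => Bd.mkQ (1 ⊗ₜ w j))

end Pool.Agent.MP_6883a6_al.H36
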