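import Pool.Agent.MP_6883a6_al.H36.Spec

/- Leading coefficients and rank. -/

namespace Pool.Agent.MP_6883a6_al.H36

namespace ValA

theorem split {R M : Type} [DivisionRing R] [AddCommGroup M] [Module R M] (V : Submodule R M)
    (Ψ : M →ₗ[R] R) : Module.rank R (LinearMap.range (Ψ.domRestrict V)) +
      Module.rank R (V ⊓ LinearMap.ker Ψ : Submodule R M) = Module.rank R V := by
  rw [← LinearMap.rank_range_add_rank_ker (Ψ.domRestrict V), LinearMap.ker_domRestrict,
    ← Submodule.map_comap_subtype, ← (Submodule.equivMapOfInjective _ V.injective_subtype _).rank_eq]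

theorem least {F : Type} {s : Set F} {r : F → F → Prop} (h : s.WellFoundedOn r) {u : F}
    (hu : u ∈ s) : ∃ m ∈ s, ∀ v, r v m → v ∉ s := by
  obtain ⟨m, -, hm⟩ := WellFounded.has_min h Set.univ ⟨⟨u, hu⟩, trivial⟩
  exact ⟨m, m.2, fun v hv hs => hm ⟨v, hs⟩ trivial hv⟩

variable {K F D : Type} [Field K] [Group F] [DivisionRing D] [Algebra K D] (S : MN K F D)
  {E W : Type} [AddCommGroup E] [Module D E] [Module K E] [IsScalarTower K D E]
  [AddCommGroup W] [Module K W] {cf : F → E →ₗ[K] W}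

theorem one (h : Cf S cf) (V : Submodule D E) :
    Module.rank K (Ld S cf V) ≤ Module.rank D V := by
  have := S.tot
  let b := Module.Free.chooseBasis K (Ld S cf V)
  choose c c1 c2 c3 using fun i => (mem_Ld S cf V _).1 (b i).2
  rw [← b.mk_eq_rank'']
  refine LinearIndependent.cardinal_le_rank (v := fun i => (⟨c i, c1 i⟩ : V))
    (LinearIndependent.of_comp V.subtype (linearIndependent_iff'.2 fun s g hg i hi => ?_))
  refine S.ext0 _ fun u => ?_
  by_contra hu
  obtain ⟨m, hm, hm'⟩ := least (s := ⋃ j ∈ s, {u | S.co u (g j) ≠ 0}) (r := S.lt)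
    (s.wellFoundedOn_bUnion.2 fun j _ => S.wf (g j)) (u := u) (Set.mem_biUnion hi hu)
  obtain ⟨j, hj, hj'⟩ := Set.mem_iUnion₂.1 hm
  have hb : LinearIndependent K fun i => (b i : W) :=
    b.linearIndependent.map' (Ld S cf V).subtype (Submodule.ker_subtype _)
  refine hj' (linearIndependent_iff'.1 hb s (fun i => S.co m (g i)) ?_ j hj)
  refine (Module.forall_dual_apply_eq_zero_iff K _).1 fun ψ => ?_
  obtain ⟨Ψ, hΨ⟩ := h.lin ψ
  have e := congrArg (fun x => S.co m (Ψ x)) hg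
  simp only [map_sum, map_zero, map_smul, smul_eq_mul, Function.comp, Submodule.subtype_apply] at e
  rw [map_sum, ← e]
  refine Finset.sum_congr rfl fun k hk => ?_
  rw [S.lead _ _ m (fun v hv => not_not.1 fun h0 => hm' v hv (Set.mem_biUnion hk h0))
    (fun v hv => by rw [hΨ, c2 k v hv, map_zero]), hΨ, c3, map_smul, smul_eq_mul]

omit [IsScalarTower K D E] in
theorem shift (h : Cf S cf) (u v : F) (c : E) : cf v (S.io u⁻¹ • c) = cf (u * v) c := by
  refine sub_eq_zero.1 ((Module.forall_dual_apply_eq_zero_iff K _).1 fun ψ => ?_)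
  obtain ⟨Ψ, hΨ⟩ := h.lin ψ
  rw [map_sub, ← hΨ, ← hΨ, map_smul, smul_eq_mul, ← S.co_left u⁻¹ (u * v), inv_mul_cancel_left,
    sub_self]

theorem two (h : Cf S cf) (n : ℕ) : ∀ V : Submodule D E, (n : Cardinal) ≤ Module.rank D V →
    (n : Cardinal) ≤ Module.rank K (Ld S cf V) := by
  induction n with
  | zero => intro V _; simp
  | succ n ih =>
    intro V hV
    have hne : V ≠ ⊥ := by
      rintro rfl
      rw [rank_bot] at hV
      simp at hV
    obtain ⟨c, hc, c0⟩ := (Submodule.ne_bot_iff V).1 hne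
    obtain ⟨u, hu⟩ := not_forall.1 fun h0 => c0 (h.ext0 c h0)
    obtain ⟨m, hm, hm'⟩ := least (h.wf c) hu
    have hl : cf m c ∈ Ld S cf V := (mem_Ld S cf V _).2 ⟨S.io m⁻¹ • c, V.smul_mem _ hc,
      fun v hv => by
        rw [shift S h]
        exact not_not.1 (hm' _ (by simpa using S.lt_mul m v 1 hv)),
      by rw [shift S h, mul_one]⟩
    obtain ⟨ψ, hψ⟩ := not_forall.1 fun h0 => hm ((Module.forall_dual_apply_eq_zero_iff K _).1 h0)
    obtain ⟨Ψ, hΨ⟩ := h.lin ψ
    have h1 : Module.rank D V ≤ Module.rank D (V ⊓ LinearMap.ker Ψ : Submodule D E) + 1 := by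
      rw [← split V Ψ, add_comm]
      exact add_le_add le_rfl ((Submodule.rank_le _).trans_eq (Module.rank_self D))
    rw [Nat.cast_succ] at hV ⊢
    have h2 := ih _ (Cardinal.add_one_le_add_one_iff.1 (hV.trans h1))
    have h3 : Ld S cf (V ⊓ LinearMap.ker Ψ) ≤ Ld S cf V ⊓ LinearMap.ker ψ := fun l hl => by
      obtain ⟨e, e1, e2, rfl⟩ := (mem_Ld S cf _ _).1 hl
      refine ⟨(mem_Ld S cf V _).2 ⟨e, e1.1, e2, rfl⟩, ?_⟩
      change ψ (cf 1 e) = 0
      rw [← hΨ, LinearMap.mem_ker.1 e1.2, map_zero]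
    rw [← split (Ld S cf V) ψ, add_comm]
    refine add_le_add (Cardinal.one_le_iff_pos.2 (rank_pos_iff_exists_ne_zero.2
      ⟨⟨_, ⟨_, hl⟩, rfl⟩, fun h0 => hψ (congrArg Subtype.val h0)⟩))
      (h2.trans (Submodule.rank_mono h3))

end ValA

theorem val : Val := fun _ _ _ _ _ _ _ S _ _ _ _ _ _ _ _ _ h V =>
  ⟨ValA.one S h V, fun n => ValA.two S h n V⟩

end Pool.Agent.MP_6883a6_al.H36
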